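import Pool.Agent.Lib.MP_5c318e_ag.Mo.Tay

/-! Power substitutions and blowing up of `z = x j = 0`. -/

set_option autoImplicit false
set_option linter.unusedSectionVars false

namespace Pool.Agent.Lib.MP_5c318e_ag.Mo

open Set Filter Topology Metric Function Finset

variable {ι : Type} [Fintype ι]

/-- power substitution -/
def pw (N : ℕ) (x : ι → ℂ) : ι → ℂ := fun j => x j ^ N

theorem pw_ana (N : ℕ) (p : ι → ℂ) : AnalyticAt ℂ (pw N) p :=
  analyticAt_pi_iff.2 fun j => (co_ana j p).pow N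

theorem pw_tor (N : ℕ) {x : ι → ℂ} (hx : x ∈ Tor ι) : pw N x ∈ Tor ι := fun j => pow_ne_zero _ (hx j)

theorem mo_pw (N : ℕ) (α : ι → ℕ) (x : ι → ℂ) : mo α (pw N x) = mo (N • α) x := by
  simp [mo, pw, ← pow_mul]

theorem pw_inj {N : ℕ} (hN : N ≠ 0) {x : ι → ℂ} (hx : x ∈ Tor ι) : Injective (fderiv ℂ (pw N) x) := by
  have hd : HasFDerivAt (pw N) _ x := hasFDerivAt_pi.2 fun j =>
    (hasDerivAt_pow N (x j)).comp_hasFDerivAt x (hasFDerivAt_apply (𝕜 := ℂ) j x)
  rw [hd.fderiv]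
  intro v w e
  funext j
  have := congrFun e j
  simpa [hN, hx j] using this

theorem pw_fib {N : ℕ} (hN : N ≠ 0) (y : ι → ℂ) :
    ∃ s : Finset (ι → ℂ), s.card ≤ N ^ Fintype.card ι ∧ ∀ x, pw N x = y → x ∈ s := by
  classical
  refine ⟨Fintype.piFinset fun j => (Polynomial.nthRoots N (y j)).toFinset, ?_, fun x e => ?_⟩
  · rw [Fintype.card_piFinset]
    exact (prod_le_pow_card _ _ N fun j _ => (Multiset.toFinset_card_le _).trans
      (Polynomial.card_nthRoots _ _)).trans_eq (by simp)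
  · exact Fintype.mem_piFinset.2 fun j => Multiset.mem_toFinset.2
      ((Polynomial.mem_nthRoots (Nat.pos_of_ne_zero hN)).2 (congrFun e j))

theorem pw_good {N : ℕ} (hN : N ≠ 0) : Good (Tor ι) (Tor ι) (pw N) :=
  ⟨pw_ana N 0, funext fun _ => zero_pow hN, Eventually.of_forall fun _ => pw_tor N,
    Eventually.of_forall fun _ => pw_inj hN, _, univ, univ_mem, fun y =>
      (pw_fib hN y).imp fun _ hs => ⟨hs.1, fun x _ _ => hs.2 x⟩⟩

theorem pw_surj {N : ℕ} (hN : N ≠ 0) {r : ℝ} (hr : 0 < r) {y : ι → ℂ} (hy : ‖y‖ < r ^ N) :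
    ∃ x, ‖x‖ < r ∧ pw N x = y := by
  choose x hx using fun j => IsAlgClosed.exists_pow_nat_eq (y j) (Nat.pos_of_ne_zero hN)
  refine ⟨x, (pi_norm_lt_iff hr).2 fun j => lt_of_pow_lt_pow_left₀ N hr.le ?_, funext hx⟩
  rw [← norm_pow, hx]
  exact (norm_le_pi_norm y j).trans_lt hy

theorem pw_cov {N : ℕ} (hN : N ≠ 0) : Cov fun _ : Unit => (pw N : (ι → ℂ) → ι → ℂ) :=
  cov_one fun V hV => by
    obtain ⟨r, r0, hr⟩ := Metric.mem_nhds_iff.1 hV
    filter_upwards [ball_mem_nhds 0 (pow_pos r0 N)] with y hy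
    obtain ⟨x, h1, h2⟩ := pw_surj hN r0 (mem_ball_zero_iff.1 hy)
    exact ⟨x, hr (mem_ball_zero_iff.2 h1), h2⟩

variable [DecidableEq ι]

/-- the charts of the blowing up -/
def bl (j : ι) : Option ℂ → (ι → ℂ) × ℂ → (ι → ℂ) × ℂ
  | none => fun p => (update p.1 j (p.1 j * p.2), p.2)
  | some c => fun p => (p.1, p.1 j * (p.2 + c))

theorem bl_cov (j : ι) : Cov (bl j) := fun V hV => by
  choose r r0 hr using fun i => Metric.mem_nhds_iff.1 (hV i)
  obtain ⟨s, -, hs⟩ := (isCompact_closedBall (0 : ℂ) (r none)⁻¹).elim_nhds_subcover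
    (fun c => ball c (r (some c))) fun c _ => ball_mem_nhds _ (r0 _)
  refine ⟨insertNone s, ?_⟩
  filter_upwards [ball_mem_nhds 0 (r0 none),
    (eventually_all_finset s).2 fun c _ => ball_mem_nhds (0 : (ι → ℂ) × ℂ) (r0 (some c))] with p a1 a2
  have nm : ∀ {q : (ι → ℂ) × ℂ} {t : ℝ}, q ∈ ball (0 : (ι → ℂ) × ℂ) t ↔ ‖q.1‖ < t ∧ ‖q.2‖ < t := by
    intro q t
    rw [mem_ball_zero_iff, Prod.norm_def, max_lt_iff]
  by_cases c : ‖p.1 j‖ < r none * ‖p.2‖
  · have z : p.2 ≠ 0 := fun e => by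
      rw [e, norm_zero, mul_zero] at c
      exact c.not_ge (norm_nonneg _)
    refine ⟨none, by simp, (update p.1 j (p.1 j / p.2), p.2), hr _ (nm.2 ⟨(pi_norm_lt_iff (r0 _)).2
      fun k => ?_, (nm.1 a1).2⟩), by simp [bl, z]⟩
    rcases eq_or_ne k j with rfl | e
    · simp only [update_self, norm_div]
      rwa [div_lt_iff₀ (norm_pos_iff.2 z)]
    · simp only [update_of_ne e]
      exact (norm_le_pi_norm _ k).trans_lt (nm.1 a1).1
  by_cases z : p.1 j = 0
  · exact ⟨none, by simp, p, hr _ a1, Prod.ext (update_eq_self_iff.2 (by simp [z])) rfl⟩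
  have m : p.2 / p.1 j ∈ closedBall (0 : ℂ) (r none)⁻¹ := by
    rw [mem_closedBall_zero_iff, norm_div, div_le_iff₀ (norm_pos_iff.2 z), inv_mul_eq_div,
      le_div_iff₀ (r0 _), mul_comm]
    exact not_lt.1 c
  obtain ⟨c, c1, c2⟩ := mem_iUnion₂.1 (hs m)
  refine ⟨some c, by simpa using c1, (p.1, p.2 / p.1 j - c), hr _ (nm.2 ⟨(nm.1 (a2 c c1)).1,
    mem_ball_iff_norm.1 c2⟩), ?_⟩
  simp [bl, mul_div_cancel₀ _ z]

theorem co1_ana (j : ι) (p : (ι → ℂ) × ℂ) : AnalyticAt ℂ (fun q : (ι → ℂ) × ℂ => q.1 j) p :=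
  AnalyticAt.comp (g := fun x : ι → ℂ => x j) (f := Prod.fst) (co_ana j _) analyticAt_fst

theorem upd_ana {f : (ι → ℂ) × ℂ → ℂ} {p : (ι → ℂ) × ℂ} (j : ι) (h : AnalyticAt ℂ f p) :
    AnalyticAt ℂ (fun q : (ι → ℂ) × ℂ => update q.1 j (f q)) p :=
  analyticAt_pi_iff.2 fun k => by
    rcases eq_or_ne k j with rfl | e
    · simpa using h
    · simp only [update_of_ne e]
      exact co1_ana k p

theorem bl_none (j : ι) : Good {p : (ι → ℂ) × ℂ | p.2 ≠ 0} univ (bl j none) :=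
  Good.of_inv ((upd_ana j ((co1_ana j 0).mul analyticAt_snd)).prod analyticAt_snd) (by simp)
    (isOpen_ne_fun continuous_snd continuous_const)
    (fun p => (update p.1 j (p.1 j / p.2), p.2)) (Eventually.of_forall fun p hp =>
      ⟨by simp [mul_div_cancel_right₀ _ hp], ((upd_ana (p := bl j none p) j
        ((co1_ana j _).div analyticAt_snd hp)).prod analyticAt_snd).differentiableAt⟩)

theorem bl_some (j : ι) (c : ℂ) : Good {p : (ι → ℂ) × ℂ | p.1 j ≠ 0} univ (bl j (some c)) :=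
  Good.of_inv (analyticAt_fst.prod ((co1_ana j 0).mul (analyticAt_snd.add analyticAt_const)))
    (by simp) (isOpen_ne_fun (by fun_prop) continuous_const)
    (fun p => (p.1, p.2 / p.1 j - c)) (Eventually.of_forall fun p hp =>
      ⟨by simp [mul_div_cancel_left₀ _ hp], (analyticAt_fst.prod ((analyticAt_snd.div
        (co1_ana j (bl j (some c) p)) hp).sub analyticAt_const)).differentiableAt⟩)

/-- the model set in the product -/
def Tp (ι : Type) : Set ((ι → ℂ) × ℂ) := {p | p.1 ∈ Tor ι ∧ p.2 ≠ 0}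

/-- resolution of germs whose coefficient of `z ^ d` is a unit -/
def WW (ι : Type) [Fintype ι] (d : ℕ) : Prop := ∀ g : (ι → ℂ) × ℂ → ℂ, AnalyticAt ℂ g 0 →
  pz d g 0 ≠ 0 → Res (Tp ι) {p : (ι → ℂ) × ℂ | p.1 ∈ Tor ι ∧ g p ≠ 0}

/-- the normal form -/
def fm (e : ℕ) (Ω : ι → ℕ) (b : ℕ → (ι → ℂ) → ℂ) (u : (ι → ℂ) × ℂ → ℂ) (p : (ι → ℂ) × ℂ) : ℂ :=
  ∑ i ∈ range e, mo Ω p.1 ^ (e + 1 - i) * b i p.1 * p.2 ^ i + p.2 ^ (e + 1) * u p

theorem fm_ana {e : ℕ} {Ω : ι → ℕ} {b : ℕ → (ι → ℂ) → ℂ} {u : (ι → ℂ) × ℂ → ℂ} {c : ℂ}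
    (hb : ∀ i, AnalyticAt ℂ (b i) 0) (hu : AnalyticAt ℂ u (0, c)) :
    AnalyticAt ℂ (fm e Ω b u) (0, c) :=
  (Finset.analyticAt_fun_sum _ fun i _ => (AnalyticAt.comp
    (g := fun x => mo Ω x ^ (e + 1 - i) * b i x) (f := Prod.fst)
      (((mo_ana _ _).pow _).mul (hb i)) analyticAt_fst).mul (analyticAt_snd.pow _)).add
    ((analyticAt_snd.pow _).mul hu)

theorem blow {e : ℕ} (W : ∀ i ≤ e, WW ι i) {b : ℕ → (ι → ℂ) → ℂ} (hb : ∀ i, AnalyticAt ℂ (b i) 0)
    {i0 : ℕ} (hi : i0 < e) (h0 : b i0 0 ≠ 0) (n : ℕ) : ∀ (Ω : ι → ℕ) (u : (ι → ℂ) × ℂ → ℂ),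
      ∑ j, Ω j = n → AnalyticAt ℂ u 0 → u 0 ≠ 0 →
      Res (Tp ι) {p : (ι → ℂ) × ℂ | p.1 ∈ Tor ι ∧ fm e Ω b u p ≠ 0} := by
  induction n with
  | zero =>
    intro Ω u h1 h2 h3
    obtain rfl : Ω = 0 := funext fun j => (sum_eq_zero_iff.1 h1) j (mem_univ j)
    refine W i0 hi.le _ (fm_ana hb h2) ?_
    have := (pz_eq (g := fm e 0 b u) (a := b) (u := fun p => p.2 * u p) (d := e)
      (analyticAt_snd.mul h2) (Eventually.of_forall fun p => by
        simp only [fm, mo_zero, one_pow, one_mul]; ring)).self_of_nhds i0 hi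
    exact fun z => mul_ne_zero (Nat.cast_ne_zero.2 (Nat.factorial_ne_zero i0)) h0 (this.symm.trans z)
  | succ n ih =>
    intro Ω u h1 h2 h3
    obtain ⟨j, -, hj⟩ := exists_ne_zero_of_sum_ne_zero (h1.trans_ne n.succ_ne_zero)
    obtain ⟨Ω, rfl⟩ : ∃ Ω', Ω = Ω' + Pi.single j 1 := ⟨Ω - Pi.single j 1, funext fun k => by
      rcases eq_or_ne k j with rfl | a
      · simp; omega
      · simp [a]⟩
    have h1' : ∑ j, Ω j = n := by simpa [sum_add_distrib] using h1
    let u' : (ι → ℂ) × ℂ → ℂ := fun q => u (q.1, q.1 j * q.2)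
    have au : ∀ c, AnalyticAt ℂ u' (0, c) := fun c =>
      AnalyticAt.comp (g := u) (f := fun q : (ι → ℂ) × ℂ => (q.1, q.1 j * q.2))
        (by simp only [Pi.zero_apply, zero_mul]; exact h2)
        (analyticAt_fst.prod ((co1_ana j _).mul analyticAt_snd))
    refine Res.comp (bl_cov j) (W := fun o => o.elim (Tp ι)
      fun c => {p | p.1 ∈ Tor ι ∧ fm e Ω b u' (p.1, p.2 + c) ≠ 0}) (fun o => ?_) fun o => ?_
    · rcases o with _ | c
      · refine (bl_none j).mono (Eventually.of_forall fun p hp => hp.2) ?_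
        have t := (bl_none j).tendsto
        have t1 : Tendsto (fun p => (bl j none p).1) (𝓝 0) (𝓝 0) := (continuous_fst.tendsto 0).comp t
        have t2 : Tendsto (fun p : (ι → ℂ) × ℂ => ∑ i ∈ range e,
            (mo Ω (bl j none p).1 * p.1 j) ^ (e + 1 - i) * b i (bl j none p).1 + u (bl j none p)) (𝓝 0)
            (𝓝 (∑ i ∈ range e, (mo Ω 0 * 0) ^ (e + 1 - i) * b i 0 + u 0)) :=
          (tendsto_finsetSum _ fun i _ => (((((mo_ana Ω 0).continuousAt.tendsto.comp t1).mul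
            (co1_ana j 0).continuousAt.tendsto).pow _).mul
              ((hb i).continuousAt.tendsto.comp t1))).add (h2.continuousAt.tendsto.comp t)
        rw [sum_eq_zero fun i hi => by
          rw [mul_zero, zero_pow (by have := mem_range.1 hi; omega), zero_mul], zero_add] at t2
        filter_upwards [t2.eventually_ne h3] with p a1 hp
        refine ⟨fun k => ?_, fun z => mul_ne_zero (pow_ne_zero (e + 1) hp.2) a1 ?_⟩
        · rcases eq_or_ne k j with rfl | a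
          · simpa [bl] using ⟨hp.1 k, hp.2⟩
          · simpa [bl, a] using hp.1 k
        rw [← z, fm, mul_add, mul_sum]
        refine congrArg₂ (· + ·) (sum_congr rfl fun i hi => ?_) rfl
        obtain ⟨m, rfl⟩ := Nat.exists_eq_add_of_lt (mem_range.1 hi)
        rw [mo_add, mo_single, show i + m + 1 + 1 - i = m + 2 by omega]
        simp only [bl, update_self]
        ring
      · refine (bl_some j c).mono (Eventually.of_forall fun p hp => hp.1 j)
          (Eventually.of_forall fun p hp => ⟨hp.1, fun z =>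
            mul_ne_zero (pow_ne_zero (e + 1) (hp.1 j)) hp.2 ?_⟩)
        rw [← z, fm, fm, mul_add, mul_sum]
        refine congrArg₂ (· + ·) (sum_congr rfl fun i hi => ?_) ?_
        · obtain ⟨m, rfl⟩ := Nat.exists_eq_add_of_lt (mem_range.1 hi)
          rw [mo_add, mo_single, show i + m + 1 + 1 - i = m + 2 by omega]
          simp only [bl, mul_pow]
          ring
        · simp only [bl, u', mul_pow, mul_assoc]
    rcases o with _ | c
    · exact res_id (Eventually.of_forall fun _ => id)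
    rcases eq_or_ne c 0 with rfl | c0
    · simpa using ih Ω u' h1' (au 0) (by simp only [u', Prod.snd_zero, mul_zero]; exact h3)
    refine W e le_rfl (fun p => fm e Ω b u' (p.1, p.2 + c)) (AnalyticAt.comp (g := fm e Ω b u')
      (f := fun p : (ι → ℂ) × ℂ => (p.1, p.2 + c)) (by simpa using fm_ana hb (au c))
      (analyticAt_fst.prod (analyticAt_snd.add analyticAt_const))) ?_
    rw [pz_shift e (fun _ => c)]
    simp only [pz, fm, u', Prod.fst_zero, Prod.snd_zero, zero_add, Pi.zero_apply, zero_mul]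
    rw [iteratedDeriv_fun_add (by fun_prop) (by fun_prop),
      iteratedDeriv_fun_sum (fun _ _ => by fun_prop), sum_eq_zero fun i hi => by
        rw [iteratedDeriv_const_mul_field, iteratedDeriv_pow,
          Nat.descFactorial_eq_zero_iff_lt.2 (mem_range.1 hi)]; simp,
      iteratedDeriv_mul_const_field, iteratedDeriv_pow, zero_add]
    exact mul_ne_zero (mul_ne_zero (Nat.cast_ne_zero.2 fun z =>
      (Nat.descFactorial_eq_zero_iff_lt.1 z).not_gt (by omega)) (pow_ne_zero _ c0)) h3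

end Pool.Agent.Lib.MP_5c318e_ag.Mo
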