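import Pool.Agent.Lib.MP_5c318e_ag.Mo.Glob
import Pool.Agent.Lib.MP_5c318e_ag.S.CCov

/-! Monomial charts for function fields. -/

set_option autoImplicit false
set_option linter.unusedSectionVars false

namespace Pool.Agent.Lib.MP_5c318e_ag.Mo

open Set Filter Topology MeasureTheory

variable {ι F : Type} [Fintype ι] [DecidableEq ι] [Field F] [Algebra ℂ F] {c : Cht ι F}
  {σ : (ι → ℂ) → Pt c.O}

theorem MCh.mer_elt (h : MCh c.D σ) (hf : Fini (Algebra.ofId ℂ c.O) c.z) (a : c.O) :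
    Mer fun x => σ x a := by
  obtain ⟨C, -, hΔ, hw⟩ := c.cov hf
  obtain ⟨P, j, hP⟩ := hf.gen_pt a
  have n0 : ∀ x, MvPolynomial.eval (c.D.π (σ x)) C.Δ ^ j ≠ 0 := fun x => pow_ne_zero _ (C.Δ_ne _)
  refine ((h.mer_ev2 C P).mul (((mer_poly h.base.mer C.Δ).pow j).inv (.of_forall n0))).congr
    (.of_forall fun x => ?_)
  have h1 := hP (σ x)
  rw [Pt.map_complex, Polynomial.map_id, ← c.π_fun, RingHom.id_apply, ← hΔ, ← hw] at h1
  rw [← h1, mul_inv_cancel_right₀ (n0 x)]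

theorem MCh.zmon_unit (h : MCh c.D σ) (hf : Fini (Algebra.ofId ℂ c.O) c.z) {a : c.O}
    (ha : IsUnit a) : ∃ e, ZMon (fun x => σ x a) e :=
  (h.mer_elt hf a).zmon (.of_forall fun x => (ha.map (σ x)).ne_zero)

/-- finitely many nonzero functions become ordered Laurent monomials times units -/
theorem cht_mono (c : Cht ι F) (hf : Fini (Algebra.ofId ℂ c.O) c.z) {A : Type} (s : Finset A)
    (φ : A → F) (h0 : ∀ i ∈ s, φ i ≠ 0) :
    ∃ (I : Type) (σ : I → (ι → ℂ) → Pt c.O), ACov c.D.μ σ ∧ ∀ k, MCh c.D (σ k) ∧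
      ∃ e : A → ι → ℤ, (∀ i ∈ s, (∀ᶠ x in 𝓝[Tor ι] 0, (σ k x).Reg (φ i)) ∧
        ZMon (fun x => (σ k x).ev (φ i)) (e i)) ∧ ∀ i ∈ s, ∀ j ∈ s, e i ≤ e j ∨ e j ≤ e i := by
  classical
  obtain ⟨C, -, -, -⟩ := c.cov hf
  choose a b hb hab using fun i => c.frac (φ i)
  have a0 : ∀ i ∈ s, a i ≠ 0 := fun i hi z => mul_ne_zero (h0 i hi)
    (fun w => hb i (Subtype.ext w)) ((hab i).trans (by rw [z]; rfl))
  let t := (s ×ˢ s).filter fun q => a q.1 * b q.2 - a q.2 * b q.1 ≠ 0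
  obtain ⟨g, u, hg, e⟩ := c.exists_dvd (h := (∏ i ∈ s, a i * b i) *
    ∏ q ∈ t, (a q.1 * b q.2 - a q.2 * b q.1)) (mul_ne_zero (Finset.prod_ne_zero_iff.2 fun i hi =>
      mul_ne_zero (a0 i hi) (hb i)) (Finset.prod_ne_zero_iff.2 fun q hq => (Finset.mem_filter.1 hq).2))
  obtain ⟨I, σ, h1, h2⟩ := cov_mono C hg
  refine ⟨I, σ, h1, fun k => ⟨(h2 k).1, ?_⟩⟩
  have m := (h2 k).1.mer_elt hf
  have n : ∀ᶠ x in 𝓝[Tor ι] 0, (∀ i ∈ s, σ k x (a i) ≠ 0 ∧ σ k x (b i) ≠ 0) ∧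
      ∀ q ∈ t, σ k x (a q.1 * b q.2 - a q.2 * b q.1) ≠ 0 := (h2 k).2.mono fun x hx => by
    rw [← c.apply_aeval, ← e, map_mul, map_mul, map_prod, map_prod] at hx
    exact ⟨fun i hi => mul_ne_zero_iff.1 (map_mul (σ k x) (a i) (b i) ▸ Finset.prod_ne_zero_iff.1
      (left_ne_zero_of_mul (left_ne_zero_of_mul hx)) i hi),
      Finset.prod_ne_zero_iff.1 (right_ne_zero_of_mul (left_ne_zero_of_mul hx))⟩
  have ev : ∀ i ∈ s, ∀ᶠ x in 𝓝[Tor ι] 0, (σ k x).ev (φ i) = σ k x (a i) / σ k x (b i) :=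
    fun i hi => n.mono fun x hx => (σ k x).ev_eq (hx.1 i hi).2 (hab i)
  have me : ∀ i ∈ s, Mer fun x => (σ k x).ev (φ i) := fun i hi =>
    ((m (a i)).mul ((m (b i)).inv (n.mono fun x hx => (hx.1 i hi).2))).congr
      ((ev i hi).mono fun x hx => by rw [hx, div_eq_mul_inv])
  choose! ε hε using fun i (hi : i ∈ s) => (me i hi).zmon ((n.and (ev i hi)).mono fun x hx =>
    hx.2 ▸ div_ne_zero (hx.1.1 i hi).1 (hx.1.1 i hi).2)
  refine ⟨ε, fun i hi => ⟨n.mono fun x hx => ⟨a i, b i, (hx.1 i hi).2, hab i⟩, hε i hi⟩,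
    fun i hi j hj => ?_⟩
  have d : ∀ᶠ x in 𝓝[Tor ι] 0, (σ k x).ev (φ i) - (σ k x).ev (φ j) =
      σ k x (a i * b j - a j * b i) / (σ k x (b i) * σ k x (b j)) := by
    filter_upwards [n, ev i hi, ev j hj] with x b1 b2 b3
    rw [b2, b3, div_sub_div _ _ (b1.1 i hi).2 (b1.1 j hj).2, map_sub, map_mul, map_mul,
      mul_comm (σ k x (a j))]
  by_cases z : a i * b j - a j * b i = 0
  · exact Or.inl ((hε i hi).uniq (hε j hj) (d.mono fun x hx => by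
      rwa [z, map_zero, zero_div, sub_eq_zero] at hx)).le
  obtain ⟨γ, hγ⟩ := ((me i hi).sub (me j hj)).zmon ((n.and d).mono fun x hx => hx.2 ▸ div_ne_zero
    (hx.1.2 (i, j) (Finset.mem_filter.2 ⟨Finset.mem_product.2 ⟨hi, hj⟩, z⟩))
    (mul_ne_zero (hx.1.1 i hi).2 (hx.1.1 j hj).2))
  exact (hε i hi).total (hε j hj) hγ

end Pool.Agent.Lib.MP_5c318e_ag.Mo
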