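import Pool.Agent.Lib.MP_5c318e_ag.Mo.Loc
import Pool.Agent.Lib.MP_5c318e_ag.S.RCov

/-! Lifting of punctured polydiscs to finite coverings after a power substitution. -/

set_option autoImplicit false
set_option linter.unusedSectionVars false

namespace Pool.Agent.Lib.MP_5c318e_ag.Mo

open Set Filter Topology Metric Function Complex

variable {ι : Type} [Fintype ι] {S : Type} [TopologicalSpace S] [MeasurableSpace S] [T2Space S]
  {D : RD ι S}

/-- the punctured polydisc -/
def PT (ι : Type) [Fintype ι] (r : ℝ) : Set (ι → ℂ) := ball 0 r ∩ Tor ι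

/-- its universal covering -/
def HS (ι : Type) (r : ℝ) : Set (ι → ℂ) := {u | ∀ j, (u j).re < Real.log r}

/-- the covering map -/
noncomputable def ex (u : ι → ℂ) : ι → ℂ := fun j => exp (u j)

theorem isOpen_PT (r : ℝ) : IsOpen (PT ι r) := isOpen_ball.inter isOpen_tor

theorem convex_HS (r : ℝ) : Convex ℝ (HS ι r) := by
  simp only [HS, ofPred_forall]
  exact convex_iInter fun j => (convex_halfSpace_re_lt _).linear_preimage
    (LinearMap.proj (R := ℝ) (φ := fun _ : ι => ℂ) j)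

theorem ex_cont : Continuous (ex : (ι → ℂ) → ι → ℂ) :=
  continuous_pi fun j => continuous_exp.comp (continuous_apply j)

theorem ex_mem {r : ℝ} (hr : 0 < r) {u : ι → ℂ} : ex u ∈ PT ι r ↔ u ∈ HS ι r := by
  simp only [PT, HS, mem_inter_iff, mem_ball_zero_iff, pi_norm_lt_iff hr, ex, norm_exp, mem_ofPred_eq,
    Real.lt_log_iff_exp_lt hr]
  exact ⟨fun h => h.1, fun h => ⟨h, fun j => exp_ne_zero _⟩⟩

theorem ex_log {x : ι → ℂ} (hx : x ∈ Tor ι) : ex (fun j => log (x j)) = x :=
  funext fun j => exp_log (hx j)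

theorem preconn_PT {r : ℝ} (hr : 0 < r) : IsPreconnected (PT ι r) := by
  have : PT ι r = ex '' HS ι r := Subset.antisymm (fun x hx =>
    ⟨_, (ex_mem hr).1 (by rwa [ex_log hx.2]), ex_log hx.2⟩) (by
      rintro _ ⟨u, hu, rfl⟩; exact (ex_mem hr).2 hu)
  rw [this]
  exact (convex_HS r).isPreconnected.image _ ex_cont.continuousOn

theorem lift_uniq {A : Type} [TopologicalSpace A] {s : Set A} (hs : IsPreconnected s) {σ τ : A → S}
    (h1 : ContinuousOn σ s) (h2 : ContinuousOn τ s) (e : ∀ a ∈ s, D.π (σ a) = D.π (τ a)) {a : A}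
    (ha : a ∈ s) (e0 : σ a = τ a) : EqOn σ τ s :=
  (T2Space.isSeparatedMap D.π).eqOn_of_comp_eqOn D.loc.isLocallyInjective hs h1 h2 e ha e0

theorem pw_mem {N : ℕ} (hN : N ≠ 0) {r : ℝ} (hr : 0 < r) {x : ι → ℂ} (hx : x ∈ PT ι r) :
    pw N x ∈ PT ι (r ^ N) :=
  ⟨mem_ball_zero_iff.2 ((pi_norm_lt_iff (pow_pos hr N)).2 fun j => by
    rw [pw, norm_pow]
    exact pow_lt_pow_left₀ ((pi_norm_lt_iff hr).1 (mem_ball_zero_iff.1 hx.1) j) (norm_nonneg _) hN),
    pw_tor N hx.2⟩

theorem exists_lift (C : D.Cov) {r : ℝ} (hr : 0 < r) {ρ : (ι → ℂ) → ι → ℂ}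
    (hρ : ContinuousOn ρ (PT ι (r ^ C.f.natDegree.factorial)))
    (hΔ : ∀ x ∈ PT ι (r ^ C.f.natDegree.factorial), MvPolynomial.eval (ρ x) C.Δ ≠ 0)
    {x0 : ι → ℂ} (h0 : x0 ∈ PT ι r) {q : S} (hq : D.π q = ρ (pw C.f.natDegree.factorial x0)) :
    ∃ σ : (ι → ℂ) → S, σ x0 = q ∧ ContinuousOn σ (PT ι r) ∧
      ∀ x ∈ PT ι r, D.π (σ x) = ρ (pw C.f.natDegree.factorial x) := by
  classical
  set d := C.f.natDegree
  set N := d.factorial
  have N0 : N ≠ 0 := Nat.factorial_ne_zero d
  have hm : ∀ u ∈ HS ι r, pw N (ex u) ∈ PT ι (r ^ N) := fun u hu => pw_mem N0 hr ((ex_mem hr).2 hu)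
  have cφ : ContinuousOn (fun u => ρ (pw N (ex u))) (HS ι r) := hρ.comp
    ((continuous_iff_continuousAt.2 fun x => (pw_ana N x).continuousAt).comp ex_cont).continuousOn hm
  have m0 : (fun j => log (x0 j)) ∈ HS ι r := (ex_mem hr).1 (by rwa [ex_log h0.2])
  obtain ⟨ψ, p0, p1, p2⟩ : ∃ ψ : (ι → ℂ) → S, ψ (fun j => log (x0 j)) = q ∧ ContinuousOn ψ (HS ι r) ∧
      ∀ u ∈ HS ι r, D.π (ψ u) = ρ (pw N (ex u)) := by
    have := (convex_HS (ι := ι) r).contractibleSpace ⟨_, m0⟩
    have := (convex_HS (ι := ι) r).locallyPathConnectedSpace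
    obtain ⟨F, ⟨k0, hF⟩, -⟩ := C.covering.existsUnique_continuousMap_lifts
      (⟨_, cφ.domRestrict⟩ : C(HS ι r, ι → ℂ)) (a₀ := ⟨_, m0⟩) (e₀ := q)
      (by rw [hq]; exact congrArg (fun x => ρ (pw N x)) (ex_log h0.2).symm) fun a => hΔ _ (hm a a.2)
    refine ⟨fun a => if h : a ∈ HS ι r then F ⟨a, h⟩ else q, (dif_pos m0).trans k0, ?_, fun a ha => ?_⟩
    · rw [continuousOn_iff_continuous_domRestrict]
      exact F.continuous.congr fun a => by simp
    · beta_reduce
      rw [dif_pos ha]; exact congrFun hF _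
  let P : AddSubgroup (ι → ℂ) :=
    { carrier := {c | (∀ j, (c j).re = 0) ∧ ∀ u ∈ HS ι r, ψ (u + c) = ψ u}
      zero_mem' := ⟨fun _ => rfl, fun u _ => by rw [add_zero]⟩
      add_mem' := fun {a b} ha hb => ⟨fun j => by simp [ha.1 j, hb.1 j], fun u hu => by
        rw [← add_assoc, hb.2 _ fun j => by simpa [ha.1 j] using hu j, ha.2 u hu]⟩
      neg_mem' := fun {a} ha => ⟨fun j => by simp [ha.1 j], fun u hu => by
        rw [← ha.2 (u + -a) fun j => by simpa [ha.1 j] using hu j, neg_add_cancel_right]⟩ }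
  have per : ∀ k : ι, (Pi.single k (2 * Real.pi * I) : ι → ℂ) ∈ P := by
    intro k
    let c : ι → ℂ := Pi.single k (2 * Real.pi * I / N)
    have c0 : ∀ (n : ℕ) j, ((n • c) j).re = 0 := fun n j => by
      rcases eq_or_ne j k with rfl | e
      · simp [c, div_natCast_re]
      · simp [c, e]
    have cm : ∀ (n : ℕ), ∀ u ∈ HS ι r, u + n • c ∈ HS ι r := fun n u hu j => by
      rw [Pi.add_apply, add_re, c0, add_zero]; exact hu j
    have ce : ∀ (n : ℕ) u, pw N (ex (u + n • c)) = pw N (ex u) := fun n u => funext fun j => by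
      rcases eq_or_ne j k with rfl | e
      · simp only [pw, ex, c, Pi.add_apply, Pi.smul_apply, Pi.single_eq_same, exp_add, mul_pow,
          ← exp_nat_mul]
        rw [nsmul_eq_mul, show (N : ℂ) * (n * (2 * Real.pi * I / N)) = n * (2 * Real.pi * I) by
          field_simp, exp_nat_mul_two_pi_mul_I, mul_one]
      · simp [pw, ex, c, e]
    have cc : ∀ n : ℕ, ContinuousOn (fun u => ψ (u + n • c)) (HS ι r) := fun n =>
      p1.comp (by fun_prop) (cm n)
    have cd : (C.fin (D.π q)).toFinset.card < (Finset.range (d + 1)).card := by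
      have := C.card_le (D.π q)
      rw [(C.fin (D.π q)).encard_eq_coe_toFinset_card, Nat.cast_le] at this
      simpa [Nat.lt_succ_iff] using this
    obtain ⟨a, b, ab, hb, e⟩ : ∃ a b : ℕ, a < b ∧ b ≤ d ∧
        ψ ((fun j => log (x0 j)) + a • c) = ψ ((fun j => log (x0 j)) + b • c) := by
      obtain ⟨a, ha, b, hb, ab, e⟩ := Finset.exists_ne_map_eq_of_card_lt_of_maps_to cd
        (f := fun n : ℕ => ψ ((fun j => log (x0 j)) + n • c)) fun n _ => by
          simp only [Finite.coe_toFinset, mem_preimage, mem_singleton_iff]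
          rw [p2 _ (cm n _ m0), ce, ex_log h0.2, hq]
      rcases lt_or_gt_of_ne ab with h | h
      exacts [⟨a, b, h, Nat.lt_succ_iff.1 (Finset.mem_range.1 hb), e⟩,
        ⟨b, a, h, Nat.lt_succ_iff.1 (Finset.mem_range.1 ha), e.symm⟩]
    have e2 := lift_uniq (D := D) (convex_HS r).isPreconnected (cc a) (cc b)
      (fun u hu => by rw [p2 _ (cm a u hu), p2 _ (cm b u hu), ce, ce]) m0 e
    have m1 : (b - a) • c ∈ P := ⟨c0 _, fun u hu => by
      have := e2 (x := u - a • c) fun j => by rw [Pi.sub_apply, sub_re, c0, sub_zero]; exact hu j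
      simp only [sub_add_cancel] at this
      rw [this, sub_nsmul _ ab.le]
      congr 1
      abel⟩
    obtain ⟨t, ht⟩ := Nat.dvd_factorial (Nat.sub_pos_of_lt ab) ((Nat.sub_le b a).trans hb)
    have m2 := P.nsmul_mem m1 t
    rw [smul_smul, mul_comm, ← ht] at m2
    suffices h : d.factorial • c = Pi.single k (2 * Real.pi * I) by rwa [h] at m2
    funext j
    rcases eq_or_ne j k with rfl | e
    · simp only [c, Pi.smul_apply, Pi.single_eq_same]
      rw [nsmul_eq_mul, mul_div_cancel₀ _ (Nat.cast_ne_zero.2 N0)]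
    · simp [c, e]
  have key : ∀ u ∈ HS ι r, ψ (fun j => log (ex u j)) = ψ u := fun u hu => by
    choose n hn using fun j => log_exp_exists (u j)
    have : (∑ k, (n k) • (Pi.single k (2 * Real.pi * I) : ι → ℂ)) ∈ P :=
      P.sum_mem fun k _ => P.zsmul_mem (per k) _
    rw [← this.2 u hu]
    refine congrArg ψ (funext fun j => ?_)
    simp [ex, hn, Finset.sum_apply, Pi.single_apply]
  refine ⟨fun x => ψ fun j => log (x j), p0, fun x hx => ContinuousAt.continuousWithinAt ?_,
    fun x hx => by rw [p2 _ ((ex_mem hr).1 (by rwa [ex_log hx.2])), ex_log hx.2]⟩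
  have mx : (fun j => log (x j)) ∈ HS ι r := (ex_mem hr).1 (by rwa [ex_log hx.2])
  have oH : IsOpen (HS ι r) := by
    simp only [HS, ofPred_forall]
    exact isOpen_iInter_of_finite fun j => isOpen_lt (by fun_prop) continuous_const
  have cu : ContinuousAt (fun (y : ι → ℂ) j => log (x j) + log (y j / x j)) x :=
    continuousAt_pi.2 fun j => continuousAt_const.add (ContinuousAt.clog
      ((continuous_apply j).continuousAt.div_const _)
      (by simp [hx.2 j]))
  have u0 : (fun j => log (x j) + log (x j / x j)) = fun j => log (x j) := by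
    funext j; simp [hx.2 j]
  refine (ContinuousAt.comp (g := ψ) (by rw [u0]; exact p1.continuousAt (oH.mem_nhds mx)) cu).congr ?_
  filter_upwards [(isOpen_PT r).mem_nhds hx] with y hy
  have e : ex (fun j => log (x j) + log (y j / x j)) = y := funext fun j => by
    rw [ex, exp_add, exp_log (hx.2 j), exp_log (div_ne_zero (hy.2 j) (hx.2 j)),
      mul_div_cancel₀ _ (hx.2 j)]
  rw [comp_apply, ← key _ ((ex_mem hr).1 (by rwa [e])), e]

end Pool.Agent.Lib.MP_5c318e_ag.Mo
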