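import Pool.Agent.Lib.MP_5c318e_ag.Mo.Mer
import Pool.Agent.Lib.MP_5c318e_ag.Mo.Lift
import Pool.Agent.Lib.MP_5c318e_ag.S.RArea

/-! Monomial charts on finite coverings of the complement of a hypersurface. -/

set_option autoImplicit false
set_option linter.unusedSectionVars false

namespace Pool.Agent.Lib.MP_5c318e_ag.Mo

open Set Filter Topology Metric Function MeasureTheory

variable {ι : Type} [Fintype ι]

/-- a germ of a punctured polydisc in the coordinate space -/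
structure BCh (ρ : (ι → ℂ) → ι → ℂ) : Prop where
  mer : ∀ j, Mer fun x => ρ x j
  et : ∀ᶠ x in 𝓝[Tor ι] 0, Injective (fderiv ℂ ρ x)
  mult : ∃ N : ℕ, ∃ V ∈ 𝓝[Tor ι] (0 : ι → ℂ), ∀ y, ∃ s : Finset (ι → ℂ), s.card ≤ N ∧
    ∀ x ∈ V, ρ x = y → x ∈ s

/-- for every choice of punctured neighbourhoods finitely many images cover almost everything -/
def ACov {I S : Type} [MeasurableSpace S] (μ : Measure S) (σ : I → (ι → ℂ) → S) : Prop :=
  ∀ V : I → Set (ι → ℂ), (∀ i, V i ∈ 𝓝[Tor ι] (0 : ι → ℂ)) →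
    ∃ s : Finset I, ∀ᵐ p ∂μ, ∃ i ∈ s, ∃ x ∈ V i, σ i x = p

theorem BCh.ana {ρ : (ι → ℂ) → ι → ℂ} (h : BCh ρ) : ∀ᶠ x in 𝓝[Tor ι] 0, AnalyticAt ℂ ρ x :=
  (eventually_all.2 fun j => (h.mer j).ana).mono fun _ => analyticAt_pi_iff.2

theorem BCh.congr {ρ ρ' : (ι → ℂ) → ι → ℂ} (h : BCh ρ) (e : ∀ᶠ x in 𝓝[Tor ι] 0, ρ x = ρ' x) :
    BCh ρ' := by
  obtain ⟨N, V, hV, hN⟩ := h.mult
  refine ⟨fun j => (h.mer j).congr (e.mono fun x hx => by rw [hx]), (h.et.and (ev_ev e)).mono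
    fun x hx => by rw [← EventuallyEq.fderiv_eq hx.2]; exact hx.1, N, _, inter_mem hV e, fun y =>
      (hN y).imp fun s hs => ⟨hs.1, fun x hx a => hs.2 x hx.1 (hx.2.trans a)⟩⟩

theorem BCh.pw {ρ : (ι → ℂ) → ι → ℂ} (h : BCh ρ) {N : ℕ} (hN : N ≠ 0) : BCh fun x => ρ (pw N x) := by
  classical
  obtain ⟨M, V, hV, hM⟩ := h.mult
  choose s h1 h2 using hM
  choose t k1 k2 using pw_fib (ι := ι) hN
  refine ⟨fun j => (h.mer j).pw hN, ?_, M * N ^ Fintype.card ι, _, (pw_tendsto hN).eventually hV,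
    fun y => ⟨(s y).biUnion t, (Finset.card_biUnion_le_card_mul _ _ _ fun w _ => k1 w).trans
      (Nat.mul_le_mul_right _ (h1 y)), fun x hx e => Finset.mem_biUnion.2
      ⟨_, h2 y _ hx e, k2 _ x rfl⟩⟩⟩
  filter_upwards [(pw_tendsto hN).eventually (h.et.and h.ana), ev_tor] with x a1 a2
  rw [fderiv_fun_comp x a1.2.differentiableAt (pw_ana N x).differentiableAt]
  exact a1.1.comp (pw_inj hN a2)

/-- the Jacobian is a Laurent monomial times a unit -/
theorem BCh.jac {ρ : (ι → ℂ) → ι → ℂ} (h : BCh ρ) : ∃ a, ZMon (fun x => (fderiv ℂ ρ x).det) a :=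
  (mer_det h.mer).zmon (h.et.mono fun _ hx e => (LinearMap.det_eq_zero_iff_ker_ne_bot.1 e)
    (LinearMap.ker_eq_bot.2 hx))

/-- inversion of the coordinates in `J` -/
noncomputable def iv (J : ι → Bool) (y : ι → ℂ) : ι → ℂ := fun j => if J j then (y j)⁻¹ else y j

theorem iv_iv (J : ι → Bool) (y : ι → ℂ) : iv J (iv J y) = y := funext fun j => by
  by_cases h : J j <;> simp [iv, h]

theorem iv_tor (J : ι → Bool) {y : ι → ℂ} (hy : y ∈ Tor ι) : iv J y ∈ Tor ι := fun j => by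
  by_cases h : J j <;> simpa [iv, h] using hy j

theorem iv_ana (J : ι → Bool) {y : ι → ℂ} (hy : y ∈ Tor ι) : AnalyticAt ℂ (iv J) y :=
  analyticAt_pi_iff.2 fun j => by
    by_cases h : J j
    · simp only [iv, h, if_true]
      exact (co_ana j y).inv (hy j)
    · simp only [iv, h]
      exact co_ana j y

theorem iv_inj (J : ι → Bool) {y : ι → ℂ} (hy : y ∈ Tor ι) : Injective (fderiv ℂ (iv J) y) := by
  have e : fderiv ℂ (fun w => iv J (iv J w)) y = ContinuousLinearMap.id ℂ _ := by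
    simp only [iv_iv, fderiv_fun_id]
  rw [fderiv_fun_comp y (iv_ana J (iv_tor J hy)).differentiableAt (iv_ana J hy).differentiableAt] at e
  refine Injective.of_comp (f := fderiv ℂ (iv J) (iv J y)) ?_
  rw [← ContinuousLinearMap.coe_comp, e]
  exact injective_id

theorem iv_poly (J : ι → Bool) (g : MvPolynomial ι ℂ) : ∃ (n : ι → ℕ) (G : (ι → ℂ) → ℂ),
    (∀ y, AnalyticAt ℂ G y) ∧ ∀ y ∈ Tor ι, G y = mo n y * MvPolynomial.eval (iv J y) g := by
  classical
  induction g using MvPolynomial.induction_on with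
  | C c => exact ⟨0, fun _ => c, fun _ => analyticAt_const, by simp⟩
  | add p q hp hq =>
    obtain ⟨n, H, h1, h2⟩ := hp
    obtain ⟨m, G, k1, k2⟩ := hq
    exact ⟨n + m, fun x => mo m x * H x + mo n x * G x, fun y => ((mo_ana _ _).mul (h1 y)).add
      ((mo_ana _ _).mul (k1 y)), fun y hy => by simp only [h2 y hy, k2 y hy, mo_add, map_add]; ring⟩
  | mul_X p j hp =>
    obtain ⟨n, H, h1, h2⟩ := hp
    by_cases h : J j
    · refine ⟨n + Pi.single j 1, H, h1, fun y hy => ?_⟩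
      simp only [h2 y hy, mo_add, mo_single, map_mul, MvPolynomial.eval_X, iv, h, if_true]
      field_simp [hy j]
    · exact ⟨n, fun y => H y * y j, fun y => (h1 y).mul (co_ana j y), fun y hy => by
        simp [h2 y hy, iv, h, mul_assoc]⟩

theorem ae_tor : ∀ᵐ x : ι → ℂ, x ∈ Tor ι :=
  eventually_all.2 fun j => Measure.ae_eval_ne (fun _ : ι => (volume : Measure ℂ)) j 0

theorem base_cover {g : MvPolynomial ι ℂ} (hg : g ≠ 0) :
    ∃ (I : Type) (ρ : I → (ι → ℂ) → ι → ℂ), ACov volume ρ ∧ ∀ i, BCh (ρ i) ∧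
      ∀ᶠ x in 𝓝[Tor ι] 0, MvPolynomial.eval (ρ i x) g ≠ 0 := by
  classical
  choose n G G1 G2 using fun J => iv_poly J g
  obtain ⟨a, a1, a2⟩ := (ae_tor.and (RArea.null_poly hg)).exists
  have at' : ∀ (p y : ι → ℂ), AnalyticAt ℂ (fun x => p + x) y := fun p y =>
    analyticAt_const.add analyticAt_id
  have an : ∀ J p y, AnalyticAt ℂ (fun x => mo 1 (p + x) * G J (p + x)) y := fun J p y =>
    AnalyticAt.comp (g := fun y => mo 1 y * G J y) ((mo_ana _ _).mul (G1 J _)) (at' p y)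
  choose I π c gd using fun J p => rr ι _ (an J p 0) (freq_of_ball (p := 0) (r := ‖iv J a - p‖ + 1)
    (fun y _ => an J p y) (mem_ball_self (by positivity)) (y := iv J a - p) (by simp) (by
      rw [add_sub_cancel, G2 J _ (iv_tor J a1), iv_iv]
      exact mul_ne_zero (mo_ne _ (iv_tor J a1)) (mul_ne_zero (mo_ne _ (iv_tor J a1)) a2)))
  refine ⟨Σ J p, I J p, fun i x => iv i.1 (i.2.1 + π _ _ i.2.2 x), fun V hV => ?_, fun ⟨J, p, i⟩ => ?_⟩
  · choose s hs using fun J p => c J p (fun i => {x | (x ∈ Tor ι → x ∈ V ⟨J, p, i⟩) ∧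
      AnalyticAt ℂ (π J p i) x}) fun i =>
        (eventually_nhdsWithin_iff.1 (hV _)).and (gd J p i).ana.eventually_analyticAt
    choose t _ ht using fun J => (isCompact_closedBall (0 : ι → ℂ) 1).elim_nhds_subcover
      (fun p => (fun y => y - p) ⁻¹' _) fun p _ =>
        ((continuous_sub_right p).tendsto' p 0 (sub_self p)).eventually (hs J p)
    refine ⟨Finset.univ.sigma fun J => (t J).sigma (s J), ?_⟩
    have z : ∀ J p i, ∀ᵐ y : ι → ℂ, y ∉ (fun x => iv J (p + π J p i x)) ''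
        {x | x ∉ Tor ι ∧ AnalyticAt ℂ (π J p i) x ∧ p + π J p i x ∈ Tor ι} := fun J p i =>
      compl_mem_ae_iff.2 (addHaar_image_eq_zero_of_differentiableOn_of_addHaar_eq_zero volume
        (fun x hx => (((iv_ana J hx.2.2).comp (f := fun x => p + π J p i x)
          (analyticAt_const.add hx.2.1)).differentiableAt.restrictScalars ℝ).differentiableWithinAt)
        (measure_mono_null (fun x hx => hx.1) ae_tor))
    filter_upwards [ae_tor, eventually_all.2 fun J => (eventually_all_finset (t J)).2 fun p _ =>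
      (eventually_all_finset (s J p)).2 fun i _ => z J p i] with y y1 y2
    let J : ι → Bool := fun j => decide (1 < ‖y j‖)
    have m : iv J y ∈ closedBall (0 : ι → ℂ) 1 := by
      rw [mem_closedBall_zero_iff, pi_norm_le_iff_of_nonneg zero_le_one]
      intro j
      by_cases h : 1 < ‖y j‖
      · simpa [iv, J, h] using inv_le_one_of_one_le₀ h.le
      · simpa [iv, J, h] using not_lt.1 h
    obtain ⟨p, p1, i, i1, x, x1, e⟩ := mem_iUnion₂.1 (ht J m)
    have e1 : p + π J p i x = iv J y := by rw [e, add_sub_cancel]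
    have e2 : iv J (p + π J p i x) = y := by rw [e1, iv_iv]
    refine ⟨⟨J, p, i⟩, by simp [p1, i1], x, x1.1 (not_not.1 fun b => y2 J p p1 i i1
      ⟨x, ⟨b, x1.2, e1 ▸ iv_tor J y1⟩, e2⟩), e2⟩
  have g0 := gd J p i
  have m := eventually_nhdsWithin_iff.2 g0.map
  have m1 : ∀ᶠ x in 𝓝[Tor ι] 0, p + π J p i x ∈ Tor ι := m.mono fun x hx j e =>
    one_ne_zero (mo_ne_iff.1 (left_ne_zero_of_mul hx) j e)
  obtain ⟨N, V, hV, hN⟩ := g0.mult
  refine ⟨⟨fun j => ?_, ?_, N, _, inter_mem_nhdsWithin _ hV, fun y => (hN (iv J y - p)).imp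
    fun s hs => ⟨hs.1, fun x hx e => hs.2 x hx.2 hx.1 (by rw [← e, iv_iv, add_sub_cancel_left])⟩⟩,
    (m.and m1).mono fun x hx => right_ne_zero_of_mul (G2 J _ hx.2 ▸ right_ne_zero_of_mul hx.1)⟩
  · have b := mer_ana ((analyticAt_const (v := p j)).add (analyticAt_pi_iff.1 g0.ana j))
    by_cases h : J j
    · simp only [iv, h, if_true]
      exact b.inv (m1.mono fun x hx => hx j)
    · simp only [iv, h]
      exact b
  filter_upwards [m1, eventually_nhdsWithin_iff.2 g0.et,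
    g0.ana.eventually_analyticAt.filter_mono nhdsWithin_le_nhds] with x b1 b2 b3
  rw [fderiv_fun_comp (g := iv J) (f := fun x => p + π J p i x) x (iv_ana J b1).differentiableAt
    (analyticAt_const.add b3).differentiableAt, fderiv_const_add]
  exact (iv_inj J b1).comp b2

variable {S : Type} [TopologicalSpace S] [MeasurableSpace S] [BorelSpace S] [T2Space S]
  [SigmaCompactSpace S] {D : RD ι S}

/-- a monomial chart of a Riemann domain -/
structure MCh (D : RD ι S) (σ : (ι → ℂ) → S) : Prop where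
  cont : ∀ᶠ x in 𝓝[Tor ι] 0, ContinuousAt σ x
  base : BCh fun x => D.π (σ x)

theorem mem_PT {r : ℝ} (hr : 0 < r) : PT ι r ∈ 𝓝[Tor ι] (0 : ι → ℂ) :=
  inter_mem (mem_nhdsWithin_of_mem_nhds (ball_mem_nhds 0 hr)) self_mem_nhdsWithin

theorem exists_PT {V : Set (ι → ℂ)} (hV : V ∈ 𝓝[Tor ι] (0 : ι → ℂ)) :
    ∃ r : ℝ, 0 < r ∧ r ≤ 1 ∧ PT ι r ⊆ V := by
  obtain ⟨r, r0, hr⟩ := Metric.mem_nhdsWithin_iff.1 hV
  exact ⟨min r 1, by positivity, min_le_right _ _, fun x hx =>
    hr ⟨ball_subset_ball (min_le_left _ _) hx.1, hx.2⟩⟩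

/-- monomial charts cover a finite covering -/
theorem cov_mono (C : D.Cov) {g : MvPolynomial ι ℂ} (hg : g ≠ 0) :
    ∃ (I : Type) (σ : I → (ι → ℂ) → S), ACov D.μ σ ∧ ∀ i, MCh D (σ i) ∧
      ∀ᶠ x in 𝓝[Tor ι] 0, MvPolynomial.eval (D.π (σ i x)) g ≠ 0 := by
  classical
  obtain ⟨I, ρ, c, h⟩ := base_cover (mul_ne_zero hg C.ne)
  have N0 : C.f.natDegree.factorial ≠ 0 := Nat.factorial_ne_zero _
  choose r r0 r1 hr using fun i => exists_PT ((h i).1.ana.and (h i).2)
  have sub : ∀ i, PT ι (r i ^ C.f.natDegree.factorial) ⊆ PT ι (r i) := fun i =>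
    inter_subset_inter_left _ (ball_subset_ball (pow_le_of_le_one (r0 i).le (r1 i) N0))
  have L := fun i x0 (h0 : x0 ∈ PT ι (r i)) q => exists_lift C (r0 i) (ρ := ρ i) (q := q)
    (fun x hx => (hr i (sub i hx)).1.continuousAt.continuousWithinAt)
    (fun x hx z => (hr i (sub i hx)).2 (by rw [map_mul, z, mul_zero])) h0
  have x0 : ∀ i, (fun _ => (r i / 2 : ℝ) : ι → ℂ) ∈ PT ι (r i) := fun i =>
    ⟨mem_ball_zero_iff.2 ((pi_norm_lt_iff (r0 i)).2 fun _ => by
      rw [Complex.norm_real, Real.norm_of_nonneg (half_pos (r0 i)).le]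
      exact half_lt_self (r0 i)), fun _ => Complex.ofReal_ne_zero.2 (half_pos (r0 i)).ne'⟩
  let Q := fun i => D.π ⁻¹' {ρ i (pw C.f.natDegree.factorial fun _ => (r i / 2 : ℝ))}
  choose σ s1 s2 s3 using fun i (q : Q i) => L i _ (x0 i) _ q.2
  have fq : ∀ i, Fintype (Q i) := fun i => (C.fin _).fintype
  refine ⟨Σ i, Q i, fun a => σ a.1 a.2, fun V hV => ?_, fun ⟨i, q⟩ => ?_⟩
  · choose e e0 e1 he using fun i => exists_PT (inter_mem (mem_PT (r0 i))
      (eventually_all.2 fun q => hV ⟨i, q⟩))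
    obtain ⟨s, hs⟩ := c _ fun i => mem_PT (pow_pos (e0 i) C.f.natDegree.factorial)
    refine ⟨s.sigma fun _ => Finset.univ, ?_⟩
    filter_upwards [show ∀ᵐ p ∂D.μ, _ from RArea.null_pre D hs] with p hp
    obtain ⟨i, hi, x', hx', e'⟩ := hp
    obtain ⟨x, b1, rfl⟩ := pw_surj N0 (e0 i) (mem_ball_zero_iff.1 hx'.1)
    have hx := he i ⟨mem_ball_zero_iff.2 b1, fun j z => hx'.2 j (by simp [pw, z, N0])⟩
    obtain ⟨τ, t1, t2, t3⟩ := L i _ hx.1 _ e'.symm
    refine ⟨⟨i, ⟨_, t3 _ (x0 i)⟩⟩, by simp [hi], x, hx.2 _, Eq.trans ?_ t1⟩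
    exact lift_uniq (D := D) (preconn_PT (r0 i)) (s2 i _) t2
      (fun y hy => (s3 i _ y hy).trans (t3 y hy).symm) (x0 i) (s1 i _) hx.1
  have e : ∀ᶠ x in 𝓝[Tor ι] 0, ρ i (pw C.f.natDegree.factorial x) = D.π (σ i q x) :=
    Eventually.mono (mem_PT (r0 i)) fun x hx => (s3 i q x hx).symm
  refine ⟨⟨Eventually.mono (mem_PT (r0 i)) fun x hx =>
    (s2 i q).continuousAt ((isOpen_PT _).mem_nhds hx), ((h i).1.pw N0).congr e⟩, ?_⟩
  filter_upwards [e, (pw_tendsto N0).eventually (h i).2] with x b1 b2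
  rw [map_mul, b1] at b2
  exact left_ne_zero_of_mul b2

variable {σ : (ι → ℂ) → S}

theorem MCh.diff (h : MCh D σ) {f : S → ℂ} (hf : D.Hol f) :
    ∀ᶠ x in 𝓝[Tor ι] 0, DifferentiableAt ℂ (fun y => f (σ y)) x := by
  filter_upwards [h.cont, h.base.ana] with x a1 a2
  refine (DifferentiableAt.comp (g := fun z => f (D.sec (σ x) z)) x (hf (σ x))
    a2.differentiableAt).congr_of_eventuallyEq ?_
  filter_upwards [a1.eventually ((D.ch (σ x)).open_source.mem_nhds (D.mem_src _))] with y hy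
  rw [comp_apply, RD.sec_π hy]

/-- holomorphic functions of moderate growth are meromorphic in the chart -/
theorem MCh.mer (h : MCh D σ) {f : S → ℂ} (hf : D.Hol f) {g : MvPolynomial ι ℂ} {A : ℝ} {N : ℕ}
    (hb : ∀ p, ‖MvPolynomial.eval (D.π p) g‖ * ‖f p‖ ≤ A * (1 + ‖D.π p‖) ^ N)
    (hg : ∀ᶠ x in 𝓝[Tor ι] 0, MvPolynomial.eval (D.π (σ x)) g ≠ 0) : Mer fun x => f (σ x) := by
  have m := mer_poly h.base.mer g
  choose n C hC using fun j => (h.base.mer j).bound
  have k : ∀ᶠ x in 𝓝[Tor ι] 0, ‖mo (∑ j, n j) x‖ * (1 + ‖D.π (σ x)‖) ≤ 1 + ∑ j, |C j| := by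
    filter_upwards [eventually_all.2 hC, mem_PT one_pos] with x a1 a2
    have b : ∀ α : ι → ℕ, ‖mo α x‖ ≤ 1 := fun α => by
      rw [mo, norm_prod]
      exact Finset.prod_le_one (fun _ _ => norm_nonneg _) fun j _ => by
        rw [norm_pow]
        exact pow_le_one₀ (norm_nonneg _) ((norm_le_pi_norm x j).trans (mem_ball_zero_iff.1 a2.1).le)
    rw [mul_add, mul_one, ← norm_smul]
    refine add_le_add (b _) ((pi_norm_le_iff_of_nonneg (by positivity)).2 fun j => ?_)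
    obtain ⟨β, hβ⟩ := exists_add_of_le (Finset.single_le_sum (f := n) (fun _ _ => zero_le)
      (Finset.mem_univ j))
    rw [hβ, mo_add, Pi.smul_apply, norm_smul, norm_mul, mul_right_comm]
    exact (mul_le_of_le_one_right (by positivity) (b β)).trans ((a1 j).trans ((le_abs_self _).trans
      (Finset.single_le_sum (f := fun j => |C j|) (fun _ _ => abs_nonneg _) (Finset.mem_univ j))))
  have m2 : Mer fun x => MvPolynomial.eval (D.π (σ x)) g * f (σ x) := by
    refine mer_of_bound ((m.ana.and (h.diff hf)).mono fun x hx => hx.1.differentiableAt.mul hx.2)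
      (n := N • ∑ j, n j) (C := |A| * (1 + ∑ j, |C j|) ^ N) (k.mono fun x hx => ?_)
    rw [mo_smul, norm_pow, norm_mul]
    calc _ ≤ ‖mo (∑ j, n j) x‖ ^ N * (|A| * (1 + ‖D.π (σ x)‖) ^ N) :=
          mul_le_mul_of_nonneg_left ((hb _).trans
            (mul_le_mul_of_nonneg_right (le_abs_self A) (by positivity))) (by positivity)
      _ = |A| * (‖mo (∑ j, n j) x‖ * (1 + ‖D.π (σ x)‖)) ^ N := by rw [mul_pow]; ring
      _ ≤ _ := by gcongr
  exact ((m.inv hg).mul m2).congr (hg.mono fun x hx => inv_mul_cancel_left₀ hx _)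

theorem MCh.mer_w (h : MCh D σ) (C : D.Cov) : Mer fun x => C.w (σ x) := by
  obtain ⟨A, N, hA⟩ := C.w_bound
  exact h.mer C.hol (g := 1) (A := A) (N := N) (by simpa using hA) (by simp)

theorem MCh.mer_ev2 (h : MCh D σ) (C : D.Cov) (P : Polynomial (MvPolynomial ι ℂ)) :
    Mer fun x => ev2 P (D.π (σ x)) (C.w (σ x)) := by
  simp only [ev2, Polynomial.eval₂_eq_sum_range]
  exact mer_sum _ fun i _ => (mer_poly h.base.mer _).mul ((h.mer_w C).pow i)

/-- integration in a chart -/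
theorem MCh.area (h : MCh D σ) : ∃ (N : ℕ) (r0 : ℝ), 0 < r0 ∧ ∀ r ≤ r0,
    ∀ F : S → ENNReal, Measurable F →
      ∫⁻ p in σ '' PT ι r, F p ∂D.μ ≤
        ∫⁻ x in PT ι r, ENNReal.ofReal (‖(fderiv ℂ (fun y => D.π (σ y)) x).det‖ ^ 2) * F (σ x) ∧
      ∫⁻ x in PT ι r, ENNReal.ofReal (‖(fderiv ℂ (fun y => D.π (σ y)) x).det‖ ^ 2) * F (σ x) ≤
        N * ∫⁻ p, F p ∂D.μ := by
  classical
  obtain ⟨N, V, hV, hN⟩ := h.base.mult
  obtain ⟨a, ha⟩ := h.base.jac
  obtain ⟨r0, p0, -, hr⟩ := exists_PT (inter_mem hV (h.cont.and (h.base.ana.and ha.ne)))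
  refine ⟨N, r0, p0, fun r hr' F hF => ?_⟩
  have hr := fun x (hx : x ∈ PT ι r) => hr (inter_subset_inter_left _ (ball_subset_ball hr') hx)
  obtain ⟨D0, d1, d2, d3⟩ := RD.exists_id (ι := ι)
  have mU := (isOpen_PT (ι := ι) r).measurableSet
  have cs : ContinuousOn σ (PT ι r) := fun x hx => (hr x hx).2.1.continuousWithinAt
  have e : ∀ x, (fun z => D.π (σ (D0.sec x z))) =ᶠ[𝓝 x] fun z => D.π (σ z) := fun x =>
    (d3 x).mono fun z hz => by simp only [hz, id]
  have ej : ∀ x, D0.jac (fun p => D.π (σ p)) x = (fderiv ℂ (fun y => D.π (σ y)) x).det := fun x => by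
    rw [RD.jac, RD.fd, d1, id, (e x).fderiv_eq]
  have mG : Measurable ((PT ι r).indicator fun x => F (σ x)) := by
    refine measurable_of_restrict_of_restrict_compl mU ?_ ?_
    · rw [show (PT ι r).domRestrict ((PT ι r).indicator fun x => F (σ x)) =
        fun x => F ((PT ι r).domRestrict σ x) from funext fun x => indicator_of_mem x.2 _]
      exact hF.comp cs.domRestrict.measurable
    · rw [show (PT ι r)ᶜ.domRestrict ((PT ι r).indicator fun x => F (σ x)) = fun _ => 0 from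
        funext fun x => indicator_of_notMem x.2 _]
      exact measurable_const
  obtain ⟨am, ar⟩ := RArea.area D0 D (isOpen_PT r) cs (fun x hx => by
    rw [d1]; exact (hr x hx).2.2.1.differentiableAt.congr_of_eventuallyEq (e x)) mG
  rw [d2, setLIntegral_congr_fun mU fun x hx => by rw [indicator_of_mem hx, ej]] at ar
  rw [ar]
  constructor
  · refine (setLIntegral_mono am ?_).trans (setLIntegral_le_lintegral _ _)
    rintro _ ⟨x, hx, rfl⟩
    refine le_trans ?_ (ENNReal.le_tsum ⟨x, hx, rfl, ej x ▸ (hr x hx).2.2.2⟩)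
    exact (indicator_of_mem hx fun x => F (σ x)).ge
  · rw [← lintegral_const_mul _ hF]
    refine lintegral_mono fun q => ?_
    obtain ⟨s, s1, s2⟩ := hN (D.π q)
    calc _ = ∑' _ : {p | p ∈ PT ι r ∧ σ p = q ∧ D0.jac (fun p => D.π (σ p)) p ≠ 0}, F q :=
          tsum_congr fun p => by rw [indicator_of_mem p.2.1, p.2.2.1]
      _ ≤ _ := by
          rw [ENNReal.tsum_set_const]
          gcongr
          refine le_trans (ENat.toENNReal_le.2 ((encard_le_encard (t := s) fun p hp =>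
            s2 p (hr p hp.1).1 (by rw [hp.2.1])).trans ?_)) (ENat.toENNReal_coe N).le
          rw [encard_coe_eq_coe_finsetCard]
          exact_mod_cast s1

end Pool.Agent.Lib.MP_5c318e_ag.Mo
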