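import Pool.Agent.Lib.MP_5c318e_ag.Mo.Blow

/-! Local monomialisation of analytic germs. -/

set_option autoImplicit false
set_option linter.unusedSectionVars false

namespace Pool.Agent.Lib.MP_5c318e_ag.Mo

open Set Filter Topology Metric Function Finset

/-- resolution of all germs in the variables `ι` -/
def RR (ι : Type) [Fintype ι] : Prop :=
  ∀ f : (ι → ℂ) → ℂ, AnalyticAt ℂ f 0 → NZ f → Res (Tor ι) {x | f x ≠ 0}

variable {ι : Type} [Fintype ι]

theorem RR.ord (R : RR ι) {A : Type} (s : Finset A) (f : A → (ι → ℂ) → ℂ)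
    (hf : ∀ i ∈ s, AnalyticAt ℂ (f i) 0) (nz : ∀ i ∈ s, NZ (f i)) :
    ∃ (I : Type) (π : I → (ι → ℂ) → ι → ℂ), Cov π ∧ ∀ a, Good (Tor ι) (Tor ι) (π a) ∧
      ∃ e : A → ι → ℕ, (∀ i ∈ s, Mon (fun x => f i (π a x)) (e i)) ∧
        ∀ i ∈ s, ∀ k ∈ s, e i ≤ e k ∨ e k ≤ e i := by
  classical
  let t := (s ×ˢ s).filter fun q => NZ fun x => f q.1 x - f q.2 x
  have a1 := Finset.analyticAt_fun_prod s hf
  have ht : ∀ q ∈ t, AnalyticAt ℂ (fun x => f q.1 x - f q.2 x) 0 := fun q hq =>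
    (hf _ (mem_product.1 (mem_filter.1 hq).1).1).sub (hf _ (mem_product.1 (mem_filter.1 hq).1).2)
  have a2 := Finset.analyticAt_fun_prod t ht
  obtain ⟨I, π, c, g⟩ := R (fun x => mo 1 x * ((∏ i ∈ s, f i x) * ∏ q ∈ t, (f q.1 x - f q.2 x)))
    ((mo_ana _ _).mul (a1.mul a2)) ((nz_of_tor (Eventually.of_forall fun _ => mo_ne 1)).mul
      ((nz_prod s hf nz).mul (nz_prod t ht fun q hq => (mem_filter.1 hq).2) a2 a1) (a1.mul a2)
      (mo_ana _ _))
  refine ⟨I, π, c, fun a => ⟨(g a).mono (Eventually.of_forall fun _ => id) ((g a).map.mono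
    fun x hx hx' j e => one_ne_zero (mo_ne_iff.1 (left_ne_zero_of_mul (hx hx')) j e)), ?_⟩⟩
  have an : ∀ i ∈ s, AnalyticAt ℂ (fun x => f i (π a x)) 0 := fun i hi =>
    AnalyticAt.comp (by rw [(g a).zero]; exact hf i hi) (g a).ana
  choose! e he using fun i (hi : i ∈ s) => mon_of_ne (an i hi) ((g a).map.mono fun x hx hx' =>
    prod_ne_zero_iff.1 (left_ne_zero_of_mul (right_ne_zero_of_mul (hx hx'))) i hi)
  refine ⟨e, he, fun i hi k hk => ?_⟩
  by_cases z : NZ fun x => f i x - f k x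
  · obtain ⟨γ, hγ⟩ := mon_of_ne ((an i hi).sub (an k hk)) ((g a).map.mono fun x hx hx' =>
      prod_ne_zero_iff.1 (right_ne_zero_of_mul (right_ne_zero_of_mul (hx hx'))) (i, k)
        (mem_filter.2 ⟨mem_product.2 ⟨hi, hk⟩, z⟩))
    exact (he i hi).total (he k hk) hγ
  · exact Or.inl ((he i hi).uniq (he k hk) (((g a).tendsto.eventually (not_nz.1 z)).mono
      fun x hx => sub_eq_zero.1 hx)).le

theorem exists_min {A : Type} {s : Finset A} (hs : s.Nonempty) {e : A → ι → ℕ}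
    (h : ∀ i ∈ s, ∀ k ∈ s, e i ≤ e k ∨ e k ≤ e i) : ∃ i ∈ s, ∀ k ∈ s, e i ≤ e k := by
  obtain ⟨i, hi, m⟩ := s.exists_min_image (fun i => ∑ j, e i j) hs
  refine ⟨i, hi, fun k hk => (h i hi k hk).elim id fun l j => ?_⟩
  by_contra c
  exact (sum_lt_sum (fun j _ => l j) ⟨j, mem_univ j, not_le.1 c⟩).not_ge (m k hk)

theorem RR.ww (R : RR ι) (d : ℕ) : WW ι d := by
  classical
  induction d using Nat.strong_induction_on with
  | _ d ih =>
  intro g hg hd
  rcases d with _ | e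
  · exact res_id ((hg.continuousAt.eventually_ne hd).mono fun p a hp => ⟨hp.1, a⟩)
  by_cases he : pz e g 0 = 0
  swap
  · exact ih e e.lt_succ_self g hg he
  obtain ⟨φ, p1, p2, p3⟩ := tsch hg he hd
  have aφ : AnalyticAt ℂ (fun q : (ι → ℂ) × ℂ => φ q.1) 0 :=
    AnalyticAt.comp (g := φ) (f := Prod.fst) p1 analyticAt_fst
  have aπ : AnalyticAt ℂ (fun q : (ι → ℂ) × ℂ => (q.1, q.2 + φ q.1)) 0 :=
    analyticAt_fst.prod (analyticAt_snd.add aφ)
  have π0 : ((0 : (ι → ℂ) × ℂ).1, (0 : (ι → ℂ) × ℂ).2 + φ (0 : (ι → ℂ) × ℂ).1) = 0 := by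
    simp [p2]
  refine Res.iso _ (fun q => (q.1, q.2 - φ q.1)) aπ (analyticAt_fst.prod (analyticAt_snd.sub aφ))
    π0 (fun _ => by simp) (fun _ => by simp) ?_
  obtain ⟨a, u, a1, a2, a3, a4⟩ := tay_form (e := e) (g := fun q => g (q.1, q.2 + φ q.1))
    (AnalyticAt.comp (g := g) (by rw [π0]; exact hg) aπ)
    (p3.mono fun x hx => by rw [pz_shift]; simpa using hx) (by rw [pz_shift, π0]; exact hd)
  refine Res.mono (Z := {p | p.1 ∈ Tor ι ∧
    ∑ i ∈ range e, a i p.1 * p.2 ^ i + p.2 ^ (e + 1) * u p ≠ 0}) ?_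
    (a4.mono fun p h1 h2 => ⟨h2.1, fun z => h2.2 (h1.symm.trans z)⟩)
  let s := (range e).filter fun i => NZ (a i)
  have z : ∀ᶠ x in 𝓝 (0 : ι → ℂ), ∀ i ∈ range e \ s, a i x = 0 := (eventually_all_finset _).2
    fun i hi => not_nz.1 fun c => (mem_sdiff.1 hi).2 (mem_filter.2 ⟨(mem_sdiff.1 hi).1, c⟩)
  have tf : Tendsto (Prod.fst : (ι → ℂ) × ℂ → ι → ℂ) (𝓝 0) (𝓝 0) := continuous_fst.tendsto 0
  rcases s.eq_empty_or_nonempty with s0 | s0
  · refine res_id ?_
    filter_upwards [tf.eventually z, a2.continuousAt.eventually_ne a3] with p b1 b2 hp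
    refine ⟨hp.1, ?_⟩
    rw [sum_eq_zero fun i hi => by rw [b1 i (by simpa [s0] using hi), zero_mul], zero_add]
    exact mul_ne_zero (pow_ne_zero _ hp.2) b2
  let N := (e + 1).factorial
  have N0 : N ≠ 0 := Nat.factorial_ne_zero _
  have dv : ∀ i ∈ s, (e + 1 - i) * (N / (e + 1 - i)) = N := fun i hi => Nat.mul_div_cancel'
    (Nat.dvd_factorial (by have := mem_range.1 (mem_filter.1 hi).1; omega) (by omega))
  obtain ⟨I, π, c, hπ⟩ := R.ord s (fun i x => a i x ^ (N / (e + 1 - i))) (fun i _ => (a1 i).pow _)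
    fun i hi => (mem_filter.1 hi).2.mono fun _ hx => pow_ne_zero _ hx
  refine Res.fib c (fun j => (hπ j).1) fun j => Res.fib (pw_cov N0) (fun _ => pw_good N0) fun _ => ?_
  obtain ⟨G, ε, m1, m2⟩ := hπ j
  obtain ⟨i0, hi0, m3⟩ := exists_min s0 m2
  have G' := G.comp (pw_good N0)
  have key : ∀ i, ∃ b : (ι → ℂ) → ℂ, AnalyticAt ℂ b 0 ∧ (i = i0 → b 0 ≠ 0) ∧ (i < e →
      ∀ᶠ x in 𝓝 (0 : ι → ℂ), a i (π j (pw N x)) = mo (ε i0) x ^ (e + 1 - i) * b x) := by
    intro i
    by_cases hi : i ∈ s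
    swap
    · exact ⟨fun _ => 0, analyticAt_const, fun h => absurd (h ▸ hi0) hi, fun h =>
        (G'.tendsto.eventually z).mono fun x hx => by
          rw [hx i (mem_sdiff.2 ⟨mem_range.2 h, hi⟩), mul_zero]⟩
    have c0 : N / (e + 1 - i) ≠ 0 := fun h => N0 (by rw [← dv i hi, h, mul_zero])
    obtain ⟨α, hα⟩ := mon_of_ne (f := fun x => a i (π j x))
      (AnalyticAt.comp (by rw [G.zero]; exact a1 i) G.ana)
      ((m1 i hi).ne.mono fun x hx hx' h => hx hx' (by simp only [h, zero_pow c0]))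
    have e1 := (hα.pow (N / (e + 1 - i))).uniq (m1 i hi) EventuallyEq.rfl
    obtain ⟨δ, hδ⟩ := exists_add_of_le (m3 i hi)
    obtain ⟨v, v1, v2, v3⟩ := hα
    refine ⟨fun x => mo δ x ^ (e + 1 - i) * v (pw N x), ((mo_ana _ _).pow _).mul
      (AnalyticAt.comp (by rw [(pw_good N0).zero]; exact v1) (pw_ana N 0)), fun h => ?_, fun _ =>
      ((pw_good N0).tendsto.eventually v3).mono fun x hx => ?_⟩
    · subst h
      simpa [left_eq_add.1 hδ, (pw_good (ι := ι) N0).zero] using v2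
    · refine Eq.trans hx ?_
      simp only
      rw [mo_pw, ← mul_assoc, ← mul_pow, ← mo_add, ← hδ, ← e1, ← mo_smul, smul_smul, dv i hi]
  choose b b1 b2 b3 using key
  have aP : AnalyticAt ℂ (fun q : (ι → ℂ) × ℂ => (π j (pw N q.1), q.2)) 0 := G'.prod.ana
  have P0 : (π j (pw N (0 : (ι → ℂ) × ℂ).1), (0 : (ι → ℂ) × ℂ).2) = 0 := G'.prod.zero
  refine (blow (fun i hi => ih i (by omega)) b1 (mem_range.1 (mem_filter.1 hi0).1) (b2 i0 rfl) _
    (ε i0) (fun q => u (π j (pw N q.1), q.2)) rfl (AnalyticAt.comp (g := u) (by rw [P0]; exact a2) aP)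
    (by rw [P0]; exact a3)).mono ?_
  filter_upwards [tf.eventually G'.map, tf.eventually ((eventually_all_finset (range e)).2
    fun i hi => b3 i (mem_range.1 hi))] with p c1 c2 hp
  refine ⟨hp.1, pw_tor N hp.1, c1 hp.1, fun z => hp.2 ?_⟩
  rw [← z, fm]
  exact congrArg₂ (· + ·) (sum_congr rfl fun i hi => by rw [c2 i hi]) rfl

theorem RR.option (R : RR ι) : RR (Option ι) := by
  classical
  intro f hf nz
  obtain ⟨r, r0, hr⟩ := Metric.eventually_nhds_iff_ball.1 hf.eventually_analyticAt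
  obtain ⟨v, ⟨v1, v2⟩, v3⟩ := (((nz.mul (nz_of_tor (f := fun x => x none) (Eventually.of_forall
    fun _ hx => hx none)) (co_ana _ _) hf).mono fun _ => mul_ne_zero_iff.1).and_eventually
    (ball_mem_nhds 0 r0)).exists
  let L : (ι → ℂ) × ℂ → Option ι → ℂ := fun p o => o.elim 0 p.1 + p.2 * v o
  have aL : AnalyticAt ℂ L 0 := analyticAt_pi_iff.2 fun o => by
    refine AnalyticAt.add ?_ (analyticAt_snd.mul analyticAt_const)
    rcases o with _ | j
    exacts [analyticAt_const, co1_ana j 0]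
  have L0 : L 0 = 0 := funext fun o => by rcases o with _ | j <;> simp [L]
  have ag : AnalyticAt ℂ (fun p => f (L p)) 0 := AnalyticAt.comp (by rw [L0]; exact hf) aL
  obtain ⟨d, hd⟩ : ∃ d, pz d (fun p => f (L p)) 0 ≠ 0 := by
    by_contra c
    have e : (fun z : ℂ => f (L (0, z))) = fun z => f (z • v) := funext fun z =>
      congrArg f (funext fun o => by rcases o with _ | j <;> simp [L])
    have as : ∀ z : ℂ, AnalyticAt ℂ (fun z : ℂ => z • v) z := fun z =>
      analyticAt_id.smul analyticAt_const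
    have v0 : 0 < ‖v‖ := norm_pos_iff.2 fun h => v2 (by rw [h]; rfl)
    have an : AnalyticOnNhd ℂ (fun z : ℂ => f (z • v)) (ball 0 (r / ‖v‖)) := fun z hz =>
      AnalyticAt.comp (g := f) (hr _ (by
        rwa [mem_ball_zero_iff, norm_smul, ← lt_div_iff₀ v0, ← mem_ball_zero_iff])) (as z)
    have m0 : (0 : ℂ) ∈ ball 0 (r / ‖v‖) := mem_ball_self (div_pos r0 v0)
    refine freq_of_ball an m0 (y := 1) (by
      rwa [mem_ball_zero_iff, norm_one, one_lt_div v0, ← mem_ball_zero_iff]) (by simpa using v1)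
      ((analyticOrderAt_eq_top.1 (ENat.eq_top_iff_forall_ge.2 fun n =>
        (natCast_le_analyticOrderAt_iff_iteratedDeriv_eq_zero (an 0 m0)).2 fun i _ => ?_)).mono
        fun _ h => not_not.2 h)
    rw [← e]
    exact not_not.1 fun h => c ⟨i, h⟩
  refine Res.iso L (fun x => (fun j => x (some j) - x none / v none * v (some j), x none / v none))
    aL ((analyticAt_pi_iff.2 fun j => (co_ana _ _).sub (((co_ana _ _).div analyticAt_const v2).mul
      analyticAt_const)).prod ((co_ana _ _).div analyticAt_const v2)) L0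
    (fun p => by simp [L, v2]) (fun x => funext fun o => by rcases o with _ | j <;> simp [L, v2])
    (((R.ww d _ ag hd).mono (Eventually.of_forall fun _ hp => hp.2)).trans ?_)
  refine Res.iso (fun x : Option ι → ℂ => (fun j => x (some j), x none))
    (fun p o => o.elim p.2 p.1) ((analyticAt_pi_iff.2 fun j => co_ana _ _).prod (co_ana _ _))
    (analyticAt_pi_iff.2 fun o => ?_) rfl (fun x => funext fun o => by rcases o with _ | j <;> rfl)
    (fun _ => rfl) (res_id (Eventually.of_forall fun x hx => ⟨fun j => hx _, hx _⟩))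
  rcases o with _ | j
  exacts [analyticAt_snd, co1_ana j 0]

theorem RR.equiv {κ : Type} [Fintype κ] (e : ι ≃ κ) (R : RR ι) : RR κ := fun f hf nz => by
  have a1 : AnalyticAt ℂ (fun (x : ι → ℂ) (k : κ) => x (e.symm k)) 0 :=
    analyticAt_pi_iff.2 fun _ => co_ana _ _
  have a2 : AnalyticAt ℂ (fun (x : κ → ℂ) (k : ι) => x (e k)) 0 :=
    analyticAt_pi_iff.2 fun _ => co_ana _ _
  have t : Tendsto (fun (x : κ → ℂ) (k : ι) => x (e k)) (𝓝 0) (𝓝 0) := a2.continuousAt
  refine Res.iso _ _ a1 a2 rfl (fun x => by simp) (fun x => by simp)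
    ((R _ (AnalyticAt.comp (g := f) hf a1) (t.frequently (nz.mono fun x hx => by
      simpa using hx))).trans ?_)
  exact Res.iso _ _ a2 a1 rfl (fun x => by simp) (fun x => by simp)
    (res_id (Eventually.of_forall fun x hx j => hx _))

/-- local monomialisation -/
theorem rr (ι : Type) [Fintype ι] : RR ι := by
  refine Fintype.induction_empty_option (P := fun ι _ => RR ι) (fun α β _ e h => ?_) ?_
    (fun α _ h => h.option) ι
  · exact @RR.equiv α (Fintype.ofEquiv β e.symm) β _ e h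
  · intro f _ nz
    obtain ⟨x, hx⟩ := nz.exists
    exact res_id (Eventually.of_forall fun y _ => by rwa [Subsingleton.elim y x])

end Pool.Agent.Lib.MP_5c318e_ag.Mo
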