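import Pool.Agent.Lib.MP_5c318e_ag.Mo.Loc
import Pool.Agent.Lib.MP_9ff3e7_ag.F.Osg

/-! Germs with poles along the coordinate hyperplanes. -/

set_option autoImplicit false
set_option linter.unusedSectionVars false

namespace Pool.Agent.Lib.MP_5c318e_ag.Mo

open Set Filter Topology Metric Function
open Pool.Agent.Lib.MP_9ff3e7_ag

variable {ι : Type} [Fintype ι] {f g h : (ι → ℂ) → ℂ}

theorem ev_tor : ∀ᶠ x in 𝓝[Tor ι] 0, x ∈ Tor ι := eventually_mem_nhdsWithin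

theorem ev_ev {P : (ι → ℂ) → Prop} (h : ∀ᶠ x in 𝓝[Tor ι] 0, P x) :
    ∀ᶠ x in 𝓝[Tor ι] 0, ∀ᶠ y in 𝓝 x, P y := by
  filter_upwards [ev_tor, (eventually_nhdsWithin_iff.1 h).eventually_nhds.filter_mono
    nhdsWithin_le_nhds] with x a1 a2
  filter_upwards [a2, isOpen_tor.mem_nhds a1] with y b1 b2 using b1 b2

instance tor_neBot : (𝓝[Tor ι] (0 : ι → ℂ)).NeBot := mem_closure_iff_nhdsWithin_neBot.1 (dense_tor 0)

/-- a monomial times `h` is analytic at `0` -/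
def Mer (h : (ι → ℂ) → ℂ) : Prop :=
  ∃ (n : ι → ℕ) (H : (ι → ℂ) → ℂ), AnalyticAt ℂ H 0 ∧ ∀ᶠ x in 𝓝[Tor ι] 0, H x = mo n x * h x

theorem mer_ana (hf : AnalyticAt ℂ f 0) : Mer f := ⟨0, f, hf, by simp⟩

theorem Mer.congr (hf : Mer f) (e : ∀ᶠ x in 𝓝[Tor ι] 0, f x = g x) : Mer g := by
  obtain ⟨n, H, h1, h2⟩ := hf
  exact ⟨n, H, h1, (h2.and e).mono fun x hx => by rw [hx.1, hx.2]⟩

theorem Mer.mul (hf : Mer f) (hg : Mer g) : Mer fun x => f x * g x := by
  obtain ⟨n, H, h1, h2⟩ := hf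
  obtain ⟨m, G, k1, k2⟩ := hg
  exact ⟨n + m, fun x => H x * G x, h1.mul k1, (h2.and k2).mono fun x hx => by
    simp only [hx.1, hx.2, mo_add]; ring⟩

theorem Mer.add (hf : Mer f) (hg : Mer g) : Mer fun x => f x + g x := by
  obtain ⟨n, H, h1, h2⟩ := hf
  obtain ⟨m, G, k1, k2⟩ := hg
  exact ⟨n + m, fun x => mo m x * H x + mo n x * G x, ((mo_ana _ _).mul h1).add ((mo_ana _ _).mul k1),
    (h2.and k2).mono fun x hx => by simp only [hx.1, hx.2, mo_add]; ring⟩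

theorem Mer.sub (hf : Mer f) (hg : Mer g) : Mer fun x => f x - g x :=
  (hf.add ((mer_ana (f := fun _ => -1) analyticAt_const).mul hg)).congr
    (Eventually.of_forall fun x => by ring)

theorem mer_sum {α : Type} (s : Finset α) {F : α → (ι → ℂ) → ℂ} (h : ∀ i ∈ s, Mer (F i)) :
    Mer fun x => ∑ i ∈ s, F i x := by
  classical
  induction s using Finset.induction_on with
  | empty => simpa using mer_ana (f := fun _ => 0) analyticAt_const
  | insert i s hi ih =>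
    simp only [Finset.sum_insert hi]
    exact (h i (Finset.mem_insert_self i s)).add (ih fun j hj => h j (Finset.mem_insert_of_mem hj))

theorem mer_prod {α : Type} (s : Finset α) {F : α → (ι → ℂ) → ℂ} (h : ∀ i ∈ s, Mer (F i)) :
    Mer fun x => ∏ i ∈ s, F i x := by
  classical
  induction s using Finset.induction_on with
  | empty => simpa using mer_ana (f := fun _ => 1) analyticAt_const
  | insert i s hi ih =>
    simp only [Finset.prod_insert hi]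
    exact (h i (Finset.mem_insert_self i s)).mul (ih fun j hj => h j (Finset.mem_insert_of_mem hj))

theorem Mer.pow (hf : Mer f) (n : ℕ) : Mer fun x => f x ^ n := by
  simpa using mer_prod (Finset.range n) fun _ _ => hf

theorem mer_poly {κ : Type} {ρ : (ι → ℂ) → κ → ℂ} (hρ : ∀ j, Mer fun x => ρ x j)
    (q : MvPolynomial κ ℂ) : Mer fun x => MvPolynomial.eval (ρ x) q := by
  induction q using MvPolynomial.induction_on with
  | C c => simpa using mer_ana (f := fun _ => c) analyticAt_const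
  | add p q hp hq => simpa using hp.add hq
  | mul_X p j hp => simpa using hp.mul (hρ j)

theorem Mer.ana (hf : Mer f) : ∀ᶠ x in 𝓝[Tor ι] 0, AnalyticAt ℂ f x := by
  obtain ⟨n, H, h1, h2⟩ := hf
  filter_upwards [ev_tor, ev_ev (h2.and ev_tor),
    h1.eventually_analyticAt.filter_mono nhdsWithin_le_nhds] with x a1 a2 a3
  exact (a3.div (mo_ana n x) (mo_ne n a1)).congr (a2.mono fun y hy => by
    simp only [Pi.div_apply, hy.1, mul_div_cancel_left₀ _ (mo_ne n hy.2)])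

theorem Mer.bound (hf : Mer f) :
    ∃ (n : ι → ℕ) (C : ℝ), ∀ᶠ x in 𝓝[Tor ι] 0, ‖mo n x‖ * ‖f x‖ ≤ C := by
  obtain ⟨n, H, h1, h2⟩ := hf
  refine ⟨n, ‖H 0‖ + 1, (h2.and ((h1.continuousAt.norm.eventually_lt_const
    (lt_add_one _)).filter_mono nhdsWithin_le_nhds)).mono fun x hx => ?_⟩
  rw [← norm_mul, ← hx.1]
  exact hx.2.le

/-- removable singularities -/
theorem mer_of_bound (hf : ∀ᶠ x in 𝓝[Tor ι] 0, DifferentiableAt ℂ f x) {n : ι → ℕ} {C : ℝ}
    (hb : ∀ᶠ x in 𝓝[Tor ι] 0, ‖mo n x‖ * ‖f x‖ ≤ C) : Mer f := by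
  classical
  let k : (ι → ℂ) → ℂ := fun x => mo 1 x ^ 2 * (mo n x * f x)
  obtain ⟨r, r0, hr⟩ := Metric.eventually_nhds_iff_ball.1 (eventually_nhdsWithin_iff.1 (hf.and hb))
  refine ⟨2 • 1 + n, k, F.osgood isOpen_ball (fun x hx => DifferentiableAt.differentiableWithinAt ?_) 0
    (mem_ball_self r0), Eventually.of_forall fun x => by simp only [k, mo_add, mo_smul, mul_assoc]⟩
  by_cases c : x ∈ Tor ι
  · exact ((mo_ana _ _).pow 2).differentiableAt.mul ((mo_ana _ _).differentiableAt.mul (hr x hx c).1)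
  have z : ∀ y ∉ Tor ι, mo 1 y = 0 := fun y hy => not_not.1 fun a =>
    hy fun j e => one_ne_zero (mo_ne_iff.1 a j e)
  refine HasFDerivAt.differentiableAt (f' := 0) (hasFDerivAt_iff_isLittleO_nhds_zero.2 ?_)
  have b1 : (fun y => mo 1 (x + y)) =O[𝓝 0] fun y => y := by
    have := (mo_ana 1 x).differentiableAt.isBigO_sub.comp_tendsto
      (show Tendsto (fun y => x + y) (𝓝 0) (𝓝 x) from (continuous_const_add x).tendsto' 0 x (add_zero x))
    simpa [Function.comp_def, z x c] using this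
  have b2 : (fun y => k (x + y)) =O[𝓝 0] fun y => mo 1 (x + y) ^ 2 := by
    refine Asymptotics.IsBigO.of_bound |C| ?_
    filter_upwards [((continuous_const_add x).tendsto' 0 x (add_zero x)).eventually
      (isOpen_ball.mem_nhds hx)] with y hy
    by_cases c' : x + y ∈ Tor ι
    · simp only [k, norm_mul]
      rw [mul_comm]
      exact mul_le_mul_of_nonneg_right ((hr _ hy c').2.trans (le_abs_self C)) (norm_nonneg _)
    · simp [k, z _ c']
  have b3 := (b2.trans (b1.norm_right.pow 2)).trans_isLittleO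
    (Asymptotics.isLittleO_norm_pow_id (E' := ι → ℂ) one_lt_two)
  simpa [k, z x c] using b3

theorem Mer.deriv (hf : Mer f) (v : ι → ℂ) : Mer fun x => fderiv ℂ f x v := by
  have a := hf.ana
  obtain ⟨n, H, h1, h2⟩ := hf
  have ap : ∀ {G : (ι → ℂ) → ℂ}, AnalyticAt ℂ G 0 → AnalyticAt ℂ (fun x => fderiv ℂ G x v) 0 :=
    fun hG => ((ContinuousLinearMap.apply ℂ ℂ v).analyticAt _).comp hG.fderiv
  refine ⟨n + n, fun x => mo n x * fderiv ℂ H x v - H x * fderiv ℂ (mo n) x v,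
    ((mo_ana _ _).mul (ap h1)).sub (h1.mul (ap (mo_ana _ _))), ?_⟩
  filter_upwards [ev_ev h2, a] with x a1 a2
  rw [EventuallyEq.fderiv_eq a1, fderiv_fun_mul (mo_ana n x).differentiableAt a2.differentiableAt,
    a1.self_of_nhds, mo_add]
  simp only [add_apply, smul_apply, smul_eq_mul]
  ring

theorem mer_det {ρ : (ι → ℂ) → ι → ℂ} (hρ : ∀ j, Mer fun x => ρ x j) :
    Mer fun x => (fderiv ℂ ρ x).det := by
  classical
  refine (mer_sum Finset.univ fun (s : Equiv.Perm ι) _ => (mer_ana (f := fun _ =>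
    ((Equiv.Perm.sign s : ℤ) : ℂ)) analyticAt_const).mul (mer_prod Finset.univ fun i _ =>
      (hρ (s i)).deriv (Pi.single i 1))).congr ?_
  filter_upwards [eventually_all.2 fun j => (hρ j).ana] with x hx
  rw [ContinuousLinearMap.det, ← LinearMap.det_toMatrix', Matrix.det_apply',
    show fderiv ℂ ρ x = _ from fderiv_pi fun j => (hx j).differentiableAt]
  simp [LinearMap.toMatrix'_apply]

theorem pw_tendsto {N : ℕ} (hN : N ≠ 0) : Tendsto (pw N) (𝓝[Tor ι] 0) (𝓝[Tor ι] 0) :=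
  tendsto_nhdsWithin_iff.2 ⟨(pw_good hN).tendsto.mono_left nhdsWithin_le_nhds,
    ev_tor.mono fun _ => pw_tor N⟩

theorem Mer.pw (hf : Mer f) {N : ℕ} (hN : N ≠ 0) : Mer fun x => f (pw N x) := by
  obtain ⟨n, H, h1, h2⟩ := hf
  exact ⟨N • n, fun x => H (Mo.pw N x), AnalyticAt.comp (by rw [(pw_good hN).zero]; exact h1)
    (pw_ana N 0), ((pw_tendsto hN).eventually h2).mono fun x hx => by simp only [hx, mo_pw]⟩

/-- Laurent monomials -/
noncomputable def zm (a : ι → ℤ) (x : ι → ℂ) : ℂ := ∏ j, x j ^ a j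

theorem zm_nat (n : ι → ℕ) (x : ι → ℂ) : zm (fun j => n j) x = mo n x := by simp [zm, mo]

theorem zm_ne (a : ι → ℤ) {x : ι → ℂ} (hx : x ∈ Tor ι) : zm a x ≠ 0 :=
  Finset.prod_ne_zero_iff.2 fun j _ => zpow_ne_zero _ (hx j)

theorem zm_add (a b : ι → ℤ) {x : ι → ℂ} (hx : x ∈ Tor ι) : zm (a + b) x = zm a x * zm b x := by
  simp [zm, zpow_add₀ (hx _), Finset.prod_mul_distrib]

theorem zm_neg (a : ι → ℤ) (x : ι → ℂ) : zm (-a) x = (zm a x)⁻¹ := by simp [zm]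

/-- `f` is a Laurent monomial times a unit -/
def ZMon (f : (ι → ℂ) → ℂ) (a : ι → ℤ) : Prop :=
  ∃ u : (ι → ℂ) → ℂ, AnalyticAt ℂ u 0 ∧ u 0 ≠ 0 ∧ ∀ᶠ x in 𝓝[Tor ι] 0, f x = zm a x * u x

variable {a b c : ι → ℤ}

theorem Mer.zmon (hf : Mer f) (h0 : ∀ᶠ x in 𝓝[Tor ι] 0, f x ≠ 0) : ∃ a, ZMon f a := by
  obtain ⟨n, H, h1, h2⟩ := hf
  obtain ⟨α, u, k1, k2, k3⟩ := mon_of_ne h1 (eventually_nhdsWithin_iff.1
    ((h2.and (h0.and ev_tor)).mono fun x hx => hx.1 ▸ mul_ne_zero (mo_ne n hx.2.2) hx.2.1))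
  refine ⟨(fun j => (α j : ℤ)) + -fun j => (n j : ℤ), u, k1, k2, ?_⟩
  filter_upwards [h2, k3.filter_mono nhdsWithin_le_nhds, ev_tor] with x a1 a2 a3
  rw [zm_add _ _ a3, zm_neg, zm_nat, zm_nat, mul_right_comm, ← a2, a1, mul_right_comm,
    mul_inv_cancel₀ (mo_ne n a3), one_mul]

theorem ZMon.ne (h : ZMon f a) : ∀ᶠ x in 𝓝[Tor ι] 0, f x ≠ 0 := by
  obtain ⟨u, h1, h2, h3⟩ := h
  filter_upwards [h3, ev_tor, (h1.continuousAt.eventually_ne h2).filter_mono nhdsWithin_le_nhds]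
    with x a1 a2 a3
  exact a1 ▸ mul_ne_zero (zm_ne a a2) a3

theorem ZMon.congr (h : ZMon f a) (e : ∀ᶠ x in 𝓝[Tor ι] 0, f x = g x) : ZMon g a := by
  obtain ⟨u, h1, h2, h3⟩ := h
  exact ⟨u, h1, h2, (h3.and e).mono fun x hx => hx.2 ▸ hx.1⟩

theorem ZMon.mul (h : ZMon f a) (h' : ZMon g b) : ZMon (fun x => f x * g x) (a + b) := by
  obtain ⟨u, h1, h2, h3⟩ := h
  obtain ⟨v, k1, k2, k3⟩ := h'
  refine ⟨fun x => u x * v x, h1.mul k1, mul_ne_zero h2 k2, ?_⟩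
  filter_upwards [h3, k3, ev_tor] with x a1 a2 a3
  rw [a1, a2, zm_add _ _ a3]
  ring

theorem ZMon.inv (h : ZMon f a) : ZMon (fun x => (f x)⁻¹) (-a) := by
  obtain ⟨u, h1, h2, h3⟩ := h
  exact ⟨fun x => (u x)⁻¹, h1.inv h2, inv_ne_zero h2, h3.mono fun x hx => by
    simp only [hx, zm_neg, mul_inv]⟩

theorem ZMon.mon (h : ZMon f a) {n : ι → ℕ} (hn : ∀ j, 0 ≤ a j + n j) :
    ∃ H, AnalyticAt ℂ H 0 ∧ Mon H (fun j => (a j + n j).toNat) ∧
      ∀ᶠ x in 𝓝[Tor ι] 0, H x = mo n x * f x := by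
  obtain ⟨u, h1, h2, h3⟩ := h
  refine ⟨fun x => mo _ x * u x, (mo_ana _ _).mul h1, ⟨u, h1, h2, Eventually.of_forall fun _ => rfl⟩, ?_⟩
  filter_upwards [h3, ev_tor] with x a1 a2
  rw [a1, ← mul_assoc, ← zm_nat, ← zm_nat, ← zm_add _ _ a2]
  congr 2
  funext j
  simp only [Int.toNat_of_nonneg (hn j), Pi.add_apply, add_comm]

theorem ZMon.mer (h : ZMon f a) : Mer f := by
  obtain ⟨H, h1, -, h3⟩ := h.mon (n := fun j => (a j).natAbs) fun j => by omega
  exact ⟨_, H, h1, h3⟩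

theorem Mer.inv (hf : Mer f) (h0 : ∀ᶠ x in 𝓝[Tor ι] 0, f x ≠ 0) : Mer fun x => (f x)⁻¹ :=
  (hf.zmon h0).elim fun _ h => h.inv.mer

theorem ZMon.uniq (h : ZMon f a) (h' : ZMon g b) (e : ∀ᶠ x in 𝓝[Tor ι] 0, f x = g x) : a = b := by
  obtain ⟨H, h1, h2, h3⟩ := h.mon (n := fun j => (a j).natAbs + (b j).natAbs) fun j => by omega
  obtain ⟨G, k1, k2, k3⟩ := h'.mon (n := fun j => (a j).natAbs + (b j).natAbs) fun j => by omega
  have := h2.uniq k2 (eq_of_tor h1 k1 (eventually_nhdsWithin_iff.1 (by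
    filter_upwards [h3, k3, e] with x a1 a2 a3
    rw [a1, a2, a3])))
  funext j
  have := congrFun this j
  omega

theorem ZMon.total (h : ZMon f a) (h' : ZMon g b) (h'' : ZMon (fun x => f x - g x) c) :
    a ≤ b ∨ b ≤ a := by
  obtain ⟨H, h1, h2, h3⟩ := h.mon (n := fun j => (a j).natAbs + (b j).natAbs) fun j => by omega
  obtain ⟨G, k1, k2, k3⟩ := h'.mon (n := fun j => (a j).natAbs + (b j).natAbs) fun j => by omega
  obtain ⟨γ, hγ⟩ := mon_of_ne (h1.sub k1) (eventually_nhdsWithin_iff.1 (by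
    filter_upwards [h3, k3, h''.ne, ev_tor] with x a1 a2 a3 a4
    rw [Pi.sub_apply, a1, a2, ← mul_sub]
    exact mul_ne_zero (mo_ne _ a4) a3))
  refine (h2.total k2 hγ).imp (fun l j => ?_) fun l j => ?_ <;>
  · have := l j
    simp only at this
    change (_ : ℤ) ≤ _
    omega

/-- two sided bounds -/
theorem ZMon.bound (h : ZMon f a) : ∃ C : ℝ, 1 ≤ C ∧ ∀ᶠ x in 𝓝[Tor ι] 0,
    ‖f x‖ ≤ C * ‖zm a x‖ ∧ ‖zm a x‖ ≤ C * ‖f x‖ := by
  obtain ⟨u, h1, h2, h3⟩ := h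
  refine ⟨‖u 0‖ + ‖(u 0)⁻¹‖ + 1, le_add_of_nonneg_left (by positivity), ?_⟩
  filter_upwards [h3, ((h1.continuousAt.norm.eventually_lt_const (lt_add_one _)).and
    (((h1.inv h2).continuousAt.norm.eventually_lt_const (lt_add_one _)).and
    (h1.continuousAt.eventually_ne h2))).filter_mono nhdsWithin_le_nhds] with x a1 ⟨a2, a3, a4⟩
  simp only [Pi.inv_apply] at a3
  refine ⟨by rw [a1, norm_mul, mul_comm]; gcongr; linarith [norm_nonneg (u 0)⁻¹], ?_⟩
  rw [show zm a x = (u x)⁻¹ * f x by rw [a1]; field_simp, norm_mul]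
  gcongr
  linarith [norm_nonneg (u 0)]

end Pool.Agent.Lib.MP_5c318e_ag.Mo
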