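import Pool.Agent.Lib.MP_5c318e_ag.Mo.Res
import Pool.Agent.Lib.MP_5c318e_ag.Ex.Div

/-! Germs without zeros off the coordinate hyperplanes are monomials times units. -/

set_option autoImplicit false
set_option linter.unusedSectionVars false

namespace Pool.Agent.Lib.MP_5c318e_ag.Mo

open Set Filter Topology Metric Function

section
variable {E : Type} [NormedAddCommGroup E] [NormedSpace ℂ E]

/-- the germ at `0` is not zero -/
def NZ (f : E → ℂ) : Prop := ∃ᶠ x in 𝓝 (0 : E), f x ≠ 0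

theorem freq_of_ball {f : E → ℂ} {p x y : E} {r : ℝ} (h : AnalyticOnNhd ℂ f (ball p r))
    (hx : x ∈ ball p r) (hy : y ∈ ball p r) (h0 : f y ≠ 0) : ∃ᶠ w in 𝓝 x, f w ≠ 0 := fun e =>
  h0 (h.eqOn_zero_of_preconnected_of_eventuallyEq_zero (convex_ball p r).isPreconnected hx
    (e.mono fun _ hw => not_not.1 hw) hy)

theorem NZ.mul {f g : E → ℂ} (hf : NZ f) (hg : NZ g) (ag : AnalyticAt ℂ g 0)
    (cf : AnalyticAt ℂ f 0) : NZ fun x => f x * g x := fun e => by
  obtain ⟨r, r0, hr⟩ := Metric.eventually_nhds_iff_ball.1 ag.eventually_analyticAt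
  obtain ⟨y, hy, hy'⟩ := (hg.and_eventually (ball_mem_nhds 0 r0)).exists
  obtain ⟨x, h1, h2, h3, h4⟩ := (hf.and_eventually (e.eventually_nhds.and
    (cf.eventually_analyticAt.and (ball_mem_nhds 0 r0)))).exists
  obtain ⟨w, k1, k2, k3⟩ := ((freq_of_ball hr h4 hy' hy).and_eventually
    (h2.and (h3.continuousAt.eventually_ne h1))).exists
  exact k2 (mul_ne_zero k3 k1)

theorem nz_prod {α : Type} (s : Finset α) {f : α → E → ℂ} (a : ∀ i ∈ s, AnalyticAt ℂ (f i) 0)
    (h : ∀ i ∈ s, NZ (f i)) : NZ fun x => ∏ i ∈ s, f i x := by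
  classical
  induction s using Finset.induction_on with
  | empty => exact Frequently.of_forall fun _ => by simp
  | insert i s hi ih =>
    simp only [Finset.prod_insert hi]
    rw [Finset.forall_mem_insert] at a h
    exact h.1.mul (ih a.2 h.2) (Finset.analyticAt_fun_prod _ a.2) a.1

theorem not_nz {f : E → ℂ} : ¬ NZ f ↔ ∀ᶠ x in 𝓝 (0 : E), f x = 0 := by simp [NZ]

end

variable {ι : Type} [Fintype ι]

/-- the complement of the coordinate hyperplanes -/
def Tor (ι : Type) : Set (ι → ℂ) := {x | ∀ j, x j ≠ 0}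

theorem dense_tor : Dense (Tor ι) := by
  have := dense_pi (univ : Set ι) (s := fun _ => ({0}ᶜ : Set ℂ)) fun _ _ => dense_compl_singleton 0
  exact this.mono fun x hx j => (mem_pi.1 hx) j trivial

theorem isOpen_tor : IsOpen (Tor ι) := by
  simp only [Tor, ofPred_forall]
  exact isOpen_iInter_of_finite fun j => isOpen_ne_fun (continuous_apply j) continuous_const

theorem freq_tor (x : ι → ℂ) : ∃ᶠ y in 𝓝 x, y ∈ Tor ι := mem_closure_iff_frequently.1 (dense_tor x)

theorem nz_of_tor {f : (ι → ℂ) → ℂ} (h : ∀ᶠ x in 𝓝 (0 : ι → ℂ), x ∈ Tor ι → f x ≠ 0) : NZ f :=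
  ((freq_tor 0).and_eventually h).mono fun _ hx => hx.2 hx.1

theorem eq_of_tor {f g : (ι → ℂ) → ℂ} {p : ι → ℂ} (hf : AnalyticAt ℂ f p) (hg : AnalyticAt ℂ g p)
    (h : ∀ᶠ x in 𝓝 p, x ∈ Tor ι → f x = g x) : f =ᶠ[𝓝 p] g := by
  filter_upwards [hf.eventually_analyticAt, hg.eventually_analyticAt, h.eventually_nhds]
    with x a1 a2 a3
  exact tendsto_nhds_unique_of_frequently_eq a1.continuousAt a2.continuousAt
    (((freq_tor x).and_eventually a3).mono fun _ hy => hy.2 hy.1)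

theorem co_ana (j : ι) (p : ι → ℂ) : AnalyticAt ℂ (fun x : ι → ℂ => x j) p :=
  (ContinuousLinearMap.proj (R := ℂ) (φ := fun _ : ι => ℂ) j).analyticAt p

/-- monomials -/
def mo (α : ι → ℕ) (x : ι → ℂ) : ℂ := ∏ j, x j ^ α j

theorem mo_ana (α : ι → ℕ) (p : ι → ℂ) : AnalyticAt ℂ (mo α) p :=
  Finset.analyticAt_fun_prod _ fun j _ => (co_ana j p).pow _

theorem mo_add (α β : ι → ℕ) (x : ι → ℂ) : mo (α + β) x = mo α x * mo β x := by
  simp [mo, pow_add, Finset.prod_mul_distrib]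

theorem mo_smul (n : ℕ) (α : ι → ℕ) (x : ι → ℂ) : mo (n • α) x = mo α x ^ n := by
  simp [mo, ← Finset.prod_pow, ← pow_mul, mul_comm]

@[simp] theorem mo_zero (x : ι → ℂ) : mo 0 x = 1 := by simp [mo]

theorem mo_single [DecidableEq ι] (k : ι) (x : ι → ℂ) : mo (Pi.single k 1) x = x k := by
  rw [mo, Finset.prod_eq_single k (fun j _ hj => by simp [hj]) (by simp)]
  simp

theorem mo_ne_iff {α : ι → ℕ} {x : ι → ℂ} : mo α x ≠ 0 ↔ ∀ j, x j = 0 → α j = 0 := by
  simp [mo, Finset.prod_eq_zero_iff]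

theorem mo_ne (α : ι → ℕ) {x : ι → ℂ} (hx : x ∈ Tor ι) : mo α x ≠ 0 :=
  mo_ne_iff.2 fun j hj => absurd hj (hx j)

/-- `f` is the monomial `x ^ α` times a unit near `0` -/
def Mon (f : (ι → ℂ) → ℂ) (α : ι → ℕ) : Prop :=
  ∃ u : (ι → ℂ) → ℂ, AnalyticAt ℂ u 0 ∧ u 0 ≠ 0 ∧ ∀ᶠ x in 𝓝 (0 : ι → ℂ), f x = mo α x * u x

/-- points with a prescribed set of vanishing coordinates -/
theorem freq_set (s : Set ι) : ∃ᶠ x in 𝓝 (0 : ι → ℂ), ∀ j, x j = 0 ↔ j ∈ s := by
  classical
  have t : Tendsto (fun (t : ℂ) (j : ι) => if j ∈ s then (0 : ℂ) else t) (𝓝[≠] 0) (𝓝 0) := by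
    refine tendsto_nhdsWithin_of_tendsto_nhds (tendsto_pi_nhds.2 fun j => ?_)
    by_cases h : j ∈ s
    · simp [h]
    · simp only [h, if_false]
      exact tendsto_id
  refine t.frequently (Eventually.frequently (eventually_mem_nhdsWithin.mono fun w hw j => ?_))
  by_cases h : j ∈ s
  · simp [h]
  · simpa [h] using hw

theorem le_of_eq {α β : ι → ℕ} {u H : (ι → ℂ) → ℂ} (hu : AnalyticAt ℂ u 0) (h0 : u 0 ≠ 0)
    (hH : AnalyticAt ℂ H 0) (h : ∀ᶠ x in 𝓝 (0 : ι → ℂ), mo α x * u x = mo β x * H x) : β ≤ α := by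
  have e : (fun x => mo (α - β) x * u x) =ᶠ[𝓝 0] fun x => mo (β - α) x * H x := by
    refine eq_of_tor ((mo_ana _ _).mul hu) ((mo_ana _ _).mul hH) (h.mono fun x hx hx' => ?_)
    apply mul_left_cancel₀ (mo_ne (α ⊓ β) hx')
    rw [← mul_assoc, ← mul_assoc, ← mo_add, ← mo_add,
      show α ⊓ β + (α - β) = α from funext fun j => by simp; omega,
      show α ⊓ β + (β - α) = β from funext fun j => by simp; omega, hx]
  intro k
  by_contra hk
  have hk : α k < β k := not_le.1 hk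
  obtain ⟨x, h1, h2, h3⟩ := ((freq_set {k}).and_eventually
    (e.and (hu.continuousAt.eventually_ne h0))).exists
  have a1 : mo (α - β) x ≠ 0 := mo_ne_iff.2 fun j hj => by
    rw [show j = k from (h1 j).1 hj]; simp; omega
  have a2 : mo (β - α) x = 0 := by
    by_contra a
    have := mo_ne_iff.1 a k ((h1 k).2 rfl)
    simp at this; omega
  simp only [a2, zero_mul] at h2
  exact mul_ne_zero a1 h3 h2

variable {f g : (ι → ℂ) → ℂ} {α β γ : ι → ℕ}

theorem Mon.ne (h : Mon f α) : ∀ᶠ x in 𝓝 (0 : ι → ℂ), x ∈ Tor ι → f x ≠ 0 := by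
  obtain ⟨u, h1, h2, h3⟩ := h
  filter_upwards [h3, h1.continuousAt.eventually_ne h2] with x a1 a2 hx
  rw [a1]
  exact mul_ne_zero (mo_ne _ hx) a2

theorem Mon.uniq (h : Mon f α) (h' : Mon g β) (e : f =ᶠ[𝓝 0] g) : α = β := by
  obtain ⟨u, h1, h2, h3⟩ := h
  obtain ⟨v, k1, k2, k3⟩ := h'
  have : ∀ᶠ x in 𝓝 (0 : ι → ℂ), mo α x * u x = mo β x * v x := by
    filter_upwards [h3, k3, e] with x a1 a2 a3
    rw [← a1, ← a2, a3]
  exact le_antisymm (le_of_eq k1 k2 h1 (this.mono fun _ hx => hx.symm)) (le_of_eq h1 h2 k1 this)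

theorem Mon.pow (h : Mon f α) (n : ℕ) : Mon (fun x => f x ^ n) (n • α) := by
  obtain ⟨u, h1, h2, h3⟩ := h
  exact ⟨fun x => u x ^ n, h1.pow n, pow_ne_zero n h2, h3.mono fun x hx => by
    simp only [hx, mo_smul, mul_pow]⟩

/-- if the difference of two monomials is a monomial, one of them divides the other -/
theorem Mon.total (h : Mon f α) (h' : Mon g β) (h'' : Mon (fun x => f x - g x) γ) :
    α ≤ β ∨ β ≤ α := by
  obtain ⟨u, h1, h2, h3⟩ := h
  obtain ⟨v, k1, k2, k3⟩ := h'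
  obtain ⟨w, l1, l2, l3⟩ := h''
  have aH : AnalyticAt ℂ (fun x => mo (α - β) x * u x - mo (β - α) x * v x) 0 :=
    ((mo_ana _ _).mul h1).sub ((mo_ana _ _).mul k1)
  have e : ∀ᶠ x in 𝓝 (0 : ι → ℂ), mo γ x * w x =
      mo (α ⊓ β) x * (mo (α - β) x * u x - mo (β - α) x * v x) := by
    filter_upwards [h3, k3, l3] with x a1 a2 a3
    rw [mul_sub, ← mul_assoc, ← mul_assoc, ← mo_add, ← mo_add,
      show α ⊓ β + (α - β) = α from funext fun j => by simp; omega,
      show α ⊓ β + (β - α) = β from funext fun j => by simp; omega, ← a1, ← a2, ← a3]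
  obtain ⟨δ, rfl⟩ := exists_add_of_le (le_of_eq l1 l2 aH e)
  have e' : (fun x => mo δ x * w x) =ᶠ[𝓝 0] fun x => mo (α - β) x * u x - mo (β - α) x * v x := by
    refine eq_of_tor ((mo_ana _ _).mul l1) aH (e.mono fun x hx hx' => ?_)
    apply mul_left_cancel₀ (mo_ne (α ⊓ β) hx')
    rw [← hx, mo_add, mul_assoc]
  by_contra hc
  simp only [not_or, Pi.le_def, not_forall, not_le] at hc
  obtain ⟨⟨i, hi⟩, ⟨j, hj⟩⟩ := hc
  have ev := e'.and ((h1.continuousAt.eventually_ne h2).and ((k1.continuousAt.eventually_ne k2).and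
    (l1.continuousAt.eventually_ne l2)))
  have z : ∀ {ε : ι → ℕ} {x : ι → ℂ} (k : ι), x k = 0 → ε k ≠ 0 → mo ε x = 0 := fun k a b => by
    by_contra c
    exact b (mo_ne_iff.1 c k a)
  obtain ⟨k, hk⟩ : ∃ k, δ k ≠ 0 := by
    by_contra c
    have c' : δ = 0 := funext fun k => not_not.1 fun a => c ⟨k, a⟩
    have := e'.self_of_nhds
    simp only [c', mo_zero, one_mul, z (ε := α - β) (x := 0) i rfl (by simp; omega),
      z (ε := β - α) (x := 0) j rfl (by simp; omega), zero_mul, sub_zero] at this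
    exact l2 this
  rcases le_total (α k) (β k) with c | c
  · obtain ⟨x, a1, a2, a3, -⟩ := ((freq_set {k, j}).and_eventually ev).exists
    simp only [z (ε := δ) k ((a1 k).2 (by simp)) hk,
      z (ε := β - α) j ((a1 j).2 (by simp)) (by simp; omega), zero_mul, sub_zero] at a2
    refine mul_ne_zero (mo_ne_iff.2 fun l hl => ?_) a3 a2.symm
    rcases (a1 l).1 hl with rfl | rfl <;> simp <;> omega
  · obtain ⟨x, a1, a2, -, a3, -⟩ := ((freq_set {k, i}).and_eventually ev).exists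
    simp only [z (ε := δ) k ((a1 k).2 (by simp)) hk,
      z (ε := α - β) i ((a1 i).2 (by simp)) (by simp; omega), zero_mul, zero_sub,
      zero_eq_neg] at a2
    refine mul_ne_zero (mo_ne_iff.2 fun l hl => ?_) a3 a2
    rcases (a1 l).1 hl with rfl | rfl <;> simp <;> omega

/-- minimum principle on discs -/
theorem ne_of_discs [DecidableEq ι] {H : (ι → ℂ) → ℂ} {r : ℝ} (h : AnalyticOnNhd ℂ H (ball 0 r))
    {x : ι → ℂ} (hx : x ∈ ball 0 r) {k : ι} (hk : x k = 0)
    (h1 : ∀ w ∈ ball (0 : ℂ) r, w ≠ 0 → H (update x k w) ≠ 0)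
    (h2 : ∃ᶠ y in 𝓝 x, ∀ w ∈ ball (0 : ℂ) r, H (update y k w) ≠ 0) : H x ≠ 0 := by
  have r0 : 0 < r := pos_of_mem_ball hx
  have mem : ∀ y ∈ ball (0 : ι → ℂ) r, ∀ w ∈ ball (0 : ℂ) r, update y k w ∈ ball (0 : ι → ℂ) r := by
    intro y hy w hw
    rw [mem_ball_zero_iff, pi_norm_lt_iff r0] at *
    intro j
    rcases eq_or_ne j k with rfl | a
    · simpa using hw
    · simpa [a] using hy j
  have sub : closedBall (0 : ℂ) (r / 2) ⊆ ball 0 r := closedBall_subset_ball (half_lt_self r0)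
  have cu : Continuous fun p : (ι → ℂ) × ℂ => update p.1 k p.2 :=
    continuous_fst.update k continuous_snd
  have ca : ∀ w ∈ sphere (0 : ℂ) (r / 2),
      ContinuousAt (fun p : (ι → ℂ) × ℂ => ‖(H (update p.1 k p.2))⁻¹‖) (x, w) := fun w hw => by
    have hw' := sub (sphere_subset_closedBall hw)
    refine (ContinuousAt.inv₀ (ContinuousAt.comp (g := H)
      (f := fun p : (ι → ℂ) × ℂ => update p.1 k p.2) (x := (x, w))
      (h _ (mem x hx w hw')).continuousAt cu.continuousAt) (h1 w hw' ?_)).norm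
    rintro rfl
    simp at hw
    linarith
  obtain ⟨C, hC⟩ := (isCompact_sphere (0 : ℂ) (r / 2)).bddAbove_image
    (f := fun w => ‖(H (update x k w))⁻¹‖) fun w hw =>
      (ContinuousAt.comp (f := fun w : ℂ => (x, w)) (ca w hw) (by fun_prop)).continuousWithinAt
  have h3 : ∀ᶠ y in 𝓝 x, ∀ w ∈ sphere (0 : ℂ) (r / 2), ‖(H (update y k w))⁻¹‖ < C + 1 :=
    (isCompact_sphere (0 : ℂ) (r / 2)).eventually_forall_of_forall_eventually fun w hw =>
      (ca w hw).eventually_lt_const ((hC ⟨w, hw, rfl⟩).trans_lt (lt_add_one C))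
  have h4 : ∃ᶠ y in 𝓝 x, 1 ≤ (C + 1) * ‖H (update y k 0)‖ := by
    refine (h2.and_eventually (h3.and (isOpen_ball.mem_nhds hx))).mono fun y ⟨a1, a2, a3⟩ => ?_
    have d : DifferentiableOn ℂ (fun w => (H (update y k w))⁻¹) (closedBall 0 (r / 2)) :=
      fun w hw => (((h _ (mem y a3 w (sub hw))).differentiableAt.comp w
        (hasDerivAt_update y k w).differentiableAt).inv (a1 w (sub hw))).differentiableWithinAt
    have b := Complex.norm_le_of_forall_mem_frontier_norm_le (U := ball (0 : ℂ) (r / 2))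
      isBounded_ball (C := C + 1) (DifferentiableOn.diffContOnCl
        (by rwa [closure_ball _ (half_pos r0).ne'])) (fun w hw => (a2 w
          (by rwa [frontier_ball _ (half_pos r0).ne'] at hw)).le)
      (subset_closure (mem_ball_self (half_pos r0)))
    rwa [norm_inv, inv_le_iff_one_le_mul₀ (norm_pos_iff.2 (a1 0 (mem_ball_self r0)))] at b
  intro e
  have u0 : update x k 0 = x := by rw [← hk, update_eq_self]
  have c : ContinuousAt (fun y => (C + 1) * ‖H (update y k 0)‖) x :=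
    continuousAt_const.mul (ContinuousAt.comp (g := H) (f := fun y => update y k 0)
      (by rw [u0]; exact (h x hx).continuousAt)
      (continuous_id.update k continuous_const).continuousAt).norm
  obtain ⟨y, a1, a2⟩ := (h4.and_eventually (c.eventually_lt_const (u := 1)
    (by simp [u0, e]))).exists
  linarith

theorem ne_of_hyp {H : (ι → ℂ) → ℂ} (hH : AnalyticAt ℂ H 0)
    (h : ∀ᶠ x in 𝓝 (0 : ι → ℂ), x ∈ Tor ι → H x ≠ 0)
    (hk : ∀ k, ∃ᶠ x in 𝓝 (0 : ι → ℂ), x k = 0 ∧ H x ≠ 0) : H 0 ≠ 0 := by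
  classical
  obtain ⟨r, r0, hr⟩ := Metric.eventually_nhds_iff_ball.1 (hH.eventually_analyticAt.and h)
  have ha : AnalyticOnNhd ℂ H (ball 0 r) := fun x hx => (hr x hx).1
  have mem : ∀ (k : ι), ∀ y ∈ ball (0 : ι → ℂ) r, ∀ w ∈ ball (0 : ℂ) r,
      update y k w ∈ ball (0 : ι → ℂ) r := by
    intro k y hy w hw
    rw [mem_ball_zero_iff, pi_norm_lt_iff r0] at *
    intro j
    rcases eq_or_ne j k with rfl | a
    · simpa using hw
    · simpa [a] using hy j
  have key : ∀ (n : ℕ) (s : Finset ι), s.card = n → ∀ x ∈ ball (0 : ι → ℂ) r,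
      (∀ j, x j = 0 → j ∈ s) → H x ≠ 0 := by
    intro n
    induction n using Nat.strong_induction_on with
    | _ n ih =>
    intro s hs x hx h0
    by_cases c : ∀ k, x k ≠ 0
    · exact (hr x hx).2 c
    obtain ⟨k, c⟩ := not_forall.1 c
    have c := not_not.1 c
    have er : ∀ l ∈ s, ∀ y ∈ ball (0 : ι → ℂ) r, (∀ j, y j = 0 → j ∈ s ∧ j ≠ l) → H y ≠ 0 :=
      fun l hl y hy a => ih _ (hs ▸ Finset.card_erase_lt_of_mem hl) (s.erase l) rfl y hy
        fun j hj => Finset.mem_erase.2 (a j hj).symm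
    have ev : ∀ᶠ y in 𝓝 x, ∀ j, x j ≠ 0 → y j ≠ 0 := eventually_all.2 fun j => by
      by_cases a : x j = 0
      · exact Eventually.of_forall fun _ b => absurd a b
      · exact ((continuous_apply j).continuousAt.eventually_ne a).mono fun _ b _ => b
    refine ne_of_discs ha hx c (fun w hw w0 => er k (h0 k c) _ (mem k x hx w hw) fun j hj => ?_) ?_
    · rcases eq_or_ne j k with rfl | a
      · exact absurd (by simpa using hj) w0
      · exact ⟨h0 j (by simpa [a] using hj), a⟩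
    by_cases c2 : ∃ l, l ≠ k ∧ x l = 0
    · obtain ⟨l, l1, l2⟩ := c2
      refine ((freq_tor x).and_eventually (isOpen_ball.mem_nhds hx)).mono fun y hy w hw =>
        er l (h0 l l2) _ (mem k y hy.2 w hw) fun j hj => ?_
      rcases eq_or_ne j k with rfl | a
      · exact ⟨h0 j c, l1.symm⟩
      · exact absurd (by simpa [a] using hj) (hy.1 j)
    · obtain ⟨p, ⟨p1, p2⟩, p3⟩ := ((hk k).and_eventually (ball_mem_nhds 0 r0)).exists
      have aG : AnalyticOnNhd ℂ (fun y => H (update y k 0)) (ball 0 r) := fun y hy =>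
        AnalyticAt.comp (g := H) (ha _ (mem k y hy 0 (mem_ball_self r0))) (analyticAt_pi_iff.2 fun j => by
          rcases eq_or_ne j k with rfl | a
          · simpa using analyticAt_const
          · simp only [update_of_ne a]
            exact co_ana j y)
      refine ((freq_of_ball aG hx p3 (by rwa [update_eq_self_iff.2 p1.symm])).and_eventually
        (ev.and (isOpen_ball.mem_nhds hx))).mono fun y ⟨a1, a2, a3⟩ w hw => ?_
      rcases eq_or_ne w 0 with rfl | w0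
      · exact a1
      refine (hr _ (mem k y a3 w hw)).2 fun j => ?_
      rcases eq_or_ne j k with rfl | a
      · simpa using w0
      · simpa [a] using a2 j fun b => c2 ⟨j, a, b⟩
  exact key _ Finset.univ rfl 0 (mem_ball_self r0) fun _ _ => Finset.mem_univ _

theorem mon_of_ne (hf : AnalyticAt ℂ f 0) (h : ∀ᶠ x in 𝓝 (0 : ι → ℂ), x ∈ Tor ι → f x ≠ 0) :
    ∃ α, Mon f α := by
  classical
  let P : ℕ → Prop := fun n => ∃ (α : ι → ℕ) (H : (ι → ℂ) → ℂ), ∑ j, α j = n ∧ AnalyticAt ℂ H 0 ∧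
    ∀ᶠ x in 𝓝 (0 : ι → ℂ), f x = mo α x * H x
  have ad : AnalyticAt ℂ (fun (t : ℂ) (_ : ι) => t) 0 := analyticAt_pi_iff.2 fun _ => analyticAt_id
  have td : Tendsto (fun (t : ℂ) (_ : ι) => t) (𝓝 0) (𝓝 0) := ad.continuousAt
  have af : AnalyticAt ℂ (fun t : ℂ => f fun _ => t) 0 := AnalyticAt.comp (g := f) hf ad
  have top : analyticOrderAt (fun t : ℂ => f fun _ => t) 0 ≠ ⊤ := fun e => by
    obtain ⟨t, a1, a2, a3⟩ := ((eventually_mem_nhdsWithin (s := {0}ᶜ) (a := (0 : ℂ))).and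
      (((analyticOrderAt_eq_top.1 e).and (td.eventually h)).filter_mono nhdsWithin_le_nhds)).exists
    exact a3 (fun _ => a1) a2
  obtain ⟨d, hd⟩ := ENat.ne_top_iff_exists.1 top
  have bd : ∀ n, P n → n ≤ d := by
    rintro n ⟨α, H, rfl, a1, a2⟩
    have : ((∑ j, α j : ℕ) : ℕ∞) ≤ analyticOrderAt (fun t : ℂ => f fun _ => t) 0 :=
      (natCast_le_analyticOrderAt af).2 ⟨fun t => H fun _ => t, AnalyticAt.comp (g := H) a1 ad,
        (td.eventually a2).mono fun t ht => by simp [ht, mo, Finset.prod_pow_eq_pow_sum]⟩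
    exact_mod_cast hd ▸ this
  have P0 : P 0 := ⟨0, f, by simp, hf, Eventually.of_forall fun _ => by simp⟩
  obtain ⟨α, H, a0, a1, a2⟩ := Nat.findGreatest_spec (Nat.zero_le d) P0
  refine ⟨α, H, a1, ne_of_hyp a1 ((h.and a2).mono fun x hx hx' e => hx.1 hx' (by rw [hx.2, e, mul_zero]))
    fun k e => ?_, a2⟩
  obtain ⟨H', b1, b2⟩ := ExD.exists_div (ContinuousLinearMap.proj (R := ℂ) (φ := fun _ : ι => ℂ) k)
    (v := fun _ => 1) (q0 := 0) rfl rfl a1 (e.mono fun x hx a => not_not.1 fun b => hx ⟨a, b⟩)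
  have P1 : P (Nat.findGreatest P d + 1) := ⟨α + Pi.single k 1, H', by
    simp [Finset.sum_add_distrib, a0], b1, (a2.and b2).mono fun x hx => by
      rw [hx.1, hx.2, mo_add, mo_single, mul_assoc]; rfl⟩
  exact Nat.findGreatest_is_greatest (Nat.lt_succ_self _) (bd _ P1) P1

end Pool.Agent.Lib.MP_5c318e_ag.Mo
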