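import Mathlib

/-! Finite covers of a neighbourhood of `0` by analytic charts. -/

set_option autoImplicit false
set_option linter.unusedSectionVars false

namespace Pool.Agent.Lib.MP_5c318e_ag.Mo

open Set Filter Topology Metric Function

variable {E F G : Type} [NormedAddCommGroup E] [NormedSpace ℂ E] [NormedAddCommGroup F]
  [NormedSpace ℂ F] [NormedAddCommGroup G] [NormedSpace ℂ G] [CompleteSpace E] [CompleteSpace F]
  [CompleteSpace G]

/-- for every choice of neighbourhoods of `0`, finitely many images cover a neighbourhood of `0` -/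
def Cov {I : Type} (π : I → F → E) : Prop :=
  ∀ V : I → Set F, (∀ i, V i ∈ 𝓝 (0 : F)) → ∃ s : Finset I, ∀ᶠ y in 𝓝 (0 : E),
    ∃ i ∈ s, ∃ x ∈ V i, π i x = y

/-- an analytic germ that is unramified, of bounded multiplicity and with values in `Z` on `T` -/
structure Good (T : Set F) (Z : Set E) (π : F → E) : Prop where
  ana : AnalyticAt ℂ π 0
  zero : π 0 = 0
  map : ∀ᶠ x in 𝓝 (0 : F), x ∈ T → π x ∈ Z
  et : ∀ᶠ x in 𝓝 (0 : F), x ∈ T → Injective (fderiv ℂ π x)
  mult : ∃ N : ℕ, ∃ V ∈ 𝓝 (0 : F), ∀ y, ∃ s : Finset F, s.card ≤ N ∧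
    ∀ x ∈ V, x ∈ T → π x = y → x ∈ s

/-- the complement of `Z` is resolved by charts with model `T` -/
def Res (T : Set F) (Z : Set E) : Prop :=
  ∃ (I : Type) (π : I → F → E), Cov π ∧ ∀ i, Good T Z (π i)

variable {T T' : Set F} {Z Z' : Set E} {π : F → E}

theorem Good.tendsto (h : Good T Z π) : Tendsto π (𝓝 0) (𝓝 0) := by
  have := h.ana.continuousAt
  rwa [ContinuousAt, h.zero] at this

theorem Good.mono (h : Good T Z π) (hT : ∀ᶠ x in 𝓝 (0 : F), x ∈ T' → x ∈ T)
    (hZ : ∀ᶠ x in 𝓝 (0 : F), x ∈ T' → π x ∈ Z') : Good T' Z' π := by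
  obtain ⟨N, V, hV, hN⟩ := h.mult
  refine ⟨h.ana, h.zero, hZ, (h.et.and hT).mono fun x hx hx' => hx.1 (hx.2 hx'), N, _,
    inter_mem hV hT, fun y => ?_⟩
  obtain ⟨s, h1, h2⟩ := hN y
  exact ⟨s, h1, fun x hx hx' e => h2 x hx.1 (hx.2 hx') e⟩

theorem Good.comp {U : Set G} {ρ : G → F} (h : Good T Z π) (h' : Good U T ρ) :
    Good U Z (fun x => π (ρ x)) := by
  classical
  obtain ⟨N, V, hV, hN⟩ := h.mult
  obtain ⟨N', V', hV', hN'⟩ := h'.mult
  choose s h1 h2 using hN
  choose s' k1 k2 using hN'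
  refine ⟨AnalyticAt.comp (by rw [h'.zero]; exact h.ana) h'.ana, by rw [h'.zero, h.zero],
    (h'.map.and (h'.tendsto.eventually h.map)).mono fun x hx hx' => hx.2 (hx.1 hx'), ?_,
    N * N', _, inter_mem hV' (inter_mem (h'.tendsto.eventually hV) h'.map), fun y =>
    ⟨(s y).biUnion s', (Finset.card_biUnion_le_card_mul _ _ _ fun w _ => k1 w).trans
      (Nat.mul_le_mul_right _ (h1 y)), fun x hx hx' e => Finset.mem_biUnion.2
      ⟨ρ x, h2 y _ hx.2.1 (hx.2.2 hx') e, k2 _ x hx.1 hx' rfl⟩⟩⟩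
  filter_upwards [h'.et, h'.map, h'.tendsto.eventually h.et, h'.ana.eventually_analyticAt,
    h'.tendsto.eventually h.ana.eventually_analyticAt] with x a1 a2 a3 a4 a5 hx
  rw [fderiv_fun_comp x a5.differentiableAt a4.differentiableAt]
  exact (a3 (a2 hx)).comp (a1 hx)

theorem Res.comp {U : Set G} {I : Type} {p : I → F → E} (hc : Cov p) {W : I → Set F}
    (hg : ∀ i, Good (W i) Z (p i)) (h : ∀ i, Res U (W i)) : Res U Z := by
  classical
  choose J ρ c g using h
  refine ⟨Σ i, J i, fun a x => p a.1 (ρ a.1 a.2 x), fun V hV => ?_, fun a => (hg a.1).comp (g a.1 a.2)⟩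
  choose t ht using fun i => c i (fun j => V ⟨i, j⟩) fun j => hV _
  obtain ⟨s, hs⟩ := hc _ ht
  refine ⟨s.sigma t, hs.mono fun y hy => ?_⟩
  obtain ⟨i, hi, w, ⟨j, hj, x, hx, rfl⟩, rfl⟩ := hy
  exact ⟨⟨i, j⟩, Finset.mem_sigma.2 ⟨hi, hj⟩, x, hx, rfl⟩

theorem Res.trans {U : Set G} (h : Res T Z) (h' : Res U T) : Res U Z := by
  obtain ⟨I, p, c, g⟩ := h
  exact Res.comp c g fun _ => h'

theorem Res.mono (h : Res T Z) (hZ : ∀ᶠ y in 𝓝 (0 : E), y ∈ Z → y ∈ Z') : Res T Z' := by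
  obtain ⟨I, p, c, g⟩ := h
  exact ⟨I, p, c, fun i => (g i).mono (Eventually.of_forall fun _ => id)
    (((g i).map.and ((g i).tendsto.eventually hZ)).mono fun x hx hx' => hx.2 (hx.1 hx'))⟩

/-- a germ with a left inverse on an open set -/
theorem Good.of_inv (ha : AnalyticAt ℂ π 0) (h0 : π 0 = 0) {U : Set F} (hU : IsOpen U) (σ : E → F)
    (h : ∀ᶠ x in 𝓝 (0 : F), x ∈ U → σ (π x) = x ∧ DifferentiableAt ℂ σ (π x)) :
    Good U univ π := by
  refine ⟨ha, h0, Eventually.of_forall fun _ _ => trivial, ?_, 1, _, h, fun y =>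
    ⟨{σ y}, by simp, fun x hx hx' e => by rw [← e, (hx hx').1]; simp⟩⟩
  filter_upwards [h.eventually_nhds, ha.eventually_analyticAt] with x a1 a2 hx
  have e : (fun w => σ (π w)) =ᶠ[𝓝 x] id := by
    filter_upwards [a1, hU.mem_nhds hx] with w b1 b2
    exact (b1 b2).1
  have e2 := e.fderiv_eq (𝕜 := ℂ)
  rw [fderiv_fun_comp x (a1.self_of_nhds hx).2 a2.differentiableAt, fderiv_id] at e2
  refine Injective.of_comp (f := fderiv ℂ σ (π x)) ?_
  rw [← ContinuousLinearMap.coe_comp, e2]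
  exact injective_id

theorem cov_one (h : ∀ V ∈ 𝓝 (0 : F), ∀ᶠ y in 𝓝 (0 : E), ∃ x ∈ V, π x = y) :
    Cov fun _ : Unit => π := fun _ hV =>
  ⟨{()}, (h _ (hV ())).mono fun _ hy => ⟨(), Finset.mem_singleton_self _, hy⟩⟩

/-- change of coordinates -/
theorem Res.iso {U : Set G} (π : F → E) (σ : E → F) (ha : AnalyticAt ℂ π 0)
    (hσ : AnalyticAt ℂ σ 0) (h0 : π 0 = 0) (l : ∀ x, σ (π x) = x) (r : ∀ y, π (σ y) = y)
    (h : Res U (π ⁻¹' Z)) : Res U Z := by
  have t : Tendsto π (𝓝 0) (𝓝 0) := by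
    have := ha.continuousAt
    rwa [ContinuousAt, h0] at this
  have t' : Tendsto σ (𝓝 0) (𝓝 0) := by
    have := hσ.continuousAt
    rwa [ContinuousAt, show σ 0 = 0 by rw [← h0, l]] at this
  refine Res.comp (cov_one fun V hV => (t'.eventually hV).mono fun y hy => ⟨σ y, hy, r y⟩)
    (fun _ => (Good.of_inv ha h0 isOpen_univ σ ?_).mono (Eventually.of_forall fun _ _ => trivial)
      (Eventually.of_forall fun _ => id)) fun _ => h
  exact (t.eventually hσ.eventually_analyticAt).mono fun x hx _ => ⟨l x, hx.differentiableAt⟩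

theorem res_id (h : ∀ᶠ y in 𝓝 (0 : E), y ∈ Z → y ∈ Z') : Res Z Z' :=
  ⟨Unit, fun _ => id, cov_one fun _ hV => Eventually.mono hV fun y hy => ⟨y, hy, rfl⟩, fun _ =>
    (Good.of_inv analyticAt_id rfl isOpen_univ id (Eventually.of_forall fun _ _ =>
      ⟨rfl, differentiableAt_id⟩)).mono (Eventually.of_forall fun _ _ => trivial) h⟩

theorem Good.prod (h : Good T Z π) :
    Good {p : F × G | p.1 ∈ T} univ (fun p => (π p.1, p.2)) := by
  classical
  obtain ⟨N, V, hV, hN⟩ := h.mult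
  have t : Tendsto (Prod.fst : F × G → F) (𝓝 0) (𝓝 0) := continuous_fst.tendsto 0
  refine ⟨(AnalyticAt.comp (g := π) (f := Prod.fst) h.ana analyticAt_fst).prod analyticAt_snd,
    Prod.ext h.zero rfl, Eventually.of_forall fun _ _ => trivial, ?_, N, _, t.eventually hV,
    fun y => ?_⟩
  · filter_upwards [t.eventually h.et, t.eventually h.ana.eventually_analyticAt] with p a1 a2 hp
    have hd : HasFDerivAt (fun p : F × G => (π p.1, p.2)) _ p :=
      (a2.differentiableAt.hasFDerivAt.comp p hasFDerivAt_fst).prodMk hasFDerivAt_snd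
    rw [hd.fderiv]
    intro v w e
    simp only [ContinuousLinearMap.prod_apply, ContinuousLinearMap.comp_apply,
      ContinuousLinearMap.coe_fst', ContinuousLinearMap.coe_snd', Prod.mk.injEq] at e
    exact Prod.ext (a1 hp e.1) e.2
  · obtain ⟨s, h1, h2⟩ := hN y.1
    refine ⟨s.image fun x => (x, y.2), Finset.card_image_le.trans h1, fun p hp hp' e => ?_⟩
    exact Finset.mem_image.2 ⟨p.1, h2 _ hp hp' (congrArg Prod.fst e),
      Prod.ext rfl (congrArg Prod.snd e).symm⟩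

theorem Cov.prod {I : Type} {p : I → F → E} (h : Cov p) :
    Cov fun i (q : F × G) => (p i q.1, q.2) := fun V hV => by
  choose A hA B hB hAB using fun i => mem_nhds_prod_iff.1 (hV i)
  obtain ⟨s, hs⟩ := h A hA
  refine ⟨s, ?_⟩
  filter_upwards [(continuous_fst.tendsto (0 : E × G)).eventually hs,
    (continuous_snd.tendsto (0 : E × G)).eventually
      ((eventually_all_finset s).2 fun i _ => hB i)] with y a1 a2
  obtain ⟨i, hi, x, hx, e⟩ := a1
  exact ⟨i, hi, (x, y.2), hAB i ⟨hx, a2 i hi⟩, Prod.ext e rfl⟩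

/-- modification of the base -/
theorem Res.fib {H : Type} [NormedAddCommGroup H] [NormedSpace ℂ H] [CompleteSpace H] {U : Set H} {I : Type}
    {p : I → F → E} (hc : Cov p) {W : Set (E × G)} (hg : ∀ i, Good T Z (p i))
    (h : ∀ i, Res U {q : F × G | q.1 ∈ T ∧ (p i q.1, q.2) ∈ W}) : Res U W :=
  Res.comp hc.prod (fun i => (hg i).prod.mono (Eventually.of_forall fun _ hq => hq.1)
    (Eventually.of_forall fun _ hq => hq.2)) h

end Pool.Agent.Lib.MP_5c318e_ag.Mo
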