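import Pool.Agent.Lib.MP_5c318e_ag.Mo.Mon

/-! Taylor expansion in the last variable and the Tschirnhaus transformation. -/

set_option autoImplicit false
set_option linter.unusedSectionVars false

namespace Pool.Agent.Lib.MP_5c318e_ag.Mo

open Set Filter Topology Metric Function Finset

variable {E : Type} [NormedAddCommGroup E] [NormedSpace ℂ E] [FiniteDimensional ℂ E]
  {g : E × ℂ → ℂ}

/-- iterated derivative in the last variable -/
noncomputable def pz (k : ℕ) (g : E × ℂ → ℂ) (p : E × ℂ) : ℂ :=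
  iteratedDeriv k (fun z => g (p.1, z)) p.2

theorem deriv_snd {p : E × ℂ} (h : AnalyticAt ℂ g p) :
    deriv (fun z => g (p.1, z)) p.2 = fderiv ℂ g p (0, 1) :=
  (HasFDerivAt.comp_hasDerivAt (l := g) (f := fun z : ℂ => (p.1, z)) p.2
    h.differentiableAt.hasFDerivAt ((hasDerivAt_const _ p.1).prodMk (hasDerivAt_id _))).deriv

theorem pz_succ (k : ℕ) (p : E × ℂ) :
    pz (k + 1) g p = deriv (fun z => pz k g (p.1, z)) p.2 := by
  simp only [pz, iteratedDeriv_succ]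

theorem pz_ana (k : ℕ) {p : E × ℂ} (h : AnalyticAt ℂ g p) : AnalyticAt ℂ (pz k g) p := by
  induction k with
  | zero => exact h
  | succ k ih =>
    refine AnalyticAt.congr (f := fun q => fderiv ℂ (pz k g) q (0, 1))
      ((ContinuousLinearMap.apply ℂ ℂ ((0, 1) : E × ℂ)).analyticAt _ |>.comp ih.fderiv) ?_
    filter_upwards [ih.eventually_analyticAt] with q hq
    rw [pz_succ, deriv_snd hq]

theorem coef {G U : ℂ → ℂ} {a : ℕ → ℂ} {d i : ℕ} (hU : AnalyticAt ℂ U 0)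
    (h : ∀ᶠ z in 𝓝 (0 : ℂ), G z = ∑ j ∈ range d, a j * z ^ j + z ^ d * U z) (hi : i < d) :
    iteratedDeriv i G 0 = i.factorial * a i := by
  have a2 : AnalyticAt ℂ (fun z => z ^ d * U z) 0 := (analyticAt_id.pow d).mul hU
  have z : iteratedDeriv i (fun z => z ^ d * U z) 0 = 0 :=
    (natCast_le_analyticOrderAt_iff_iteratedDeriv_eq_zero a2).1
      ((natCast_le_analyticOrderAt a2).2 ⟨U, hU, Eventually.of_forall fun _ => by simp⟩) i hi
  rw [EventuallyEq.iteratedDeriv_eq i h, iteratedDeriv_fun_add (by fun_prop) a2.contDiffAt, z,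
    iteratedDeriv_fun_sum (fun _ _ => by fun_prop)]
  simp only [iteratedDeriv_const_mul_field, iteratedDeriv_fun_pow_zero]
  simp [hi, mul_comm]

theorem taylor (hg : AnalyticAt ℂ g 0) (d : ℕ) : ∃ (a : ℕ → E → ℂ) (u : E × ℂ → ℂ),
    (∀ i, AnalyticAt ℂ (a i) 0) ∧ AnalyticAt ℂ u 0 ∧
      ∀ᶠ p in 𝓝 (0 : E × ℂ), g p = ∑ i ∈ range d, a i p.1 * p.2 ^ i + p.2 ^ d * u p := by
  induction d with
  | zero => exact ⟨fun _ _ => 0, g, fun _ => analyticAt_const, hg, by simp⟩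
  | succ d ih =>
    obtain ⟨a, u, h1, h2, h3⟩ := ih
    have a0 : AnalyticAt ℂ (fun x : E => u (x, 0)) 0 :=
      AnalyticAt.comp (g := u) (f := fun x : E => (x, (0 : ℂ))) h2 (analyticAt_id.prod analyticAt_const)
    obtain ⟨u', k1, k2⟩ := ExD.exists_div (ContinuousLinearMap.snd ℂ E ℂ) (v := (0, 1)) (q0 := 0)
      (H := fun p => u p - u (p.1, 0)) rfl rfl
      (h2.sub (AnalyticAt.comp (g := fun x : E => u (x, 0)) (f := Prod.fst) a0 analyticAt_fst))
      (Eventually.of_forall fun q hq => by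
        rw [show (q.1, (0 : ℂ)) = q from Prod.ext rfl (Eq.symm hq), sub_self])
    refine ⟨update a d fun x => u (x, 0), u', fun i => ?_, k1, ?_⟩
    · rcases eq_or_ne i d with rfl | e
      · simpa using a0
      · simpa [e] using h1 i
    filter_upwards [h3, k2] with p b1 b2
    rw [sum_range_succ, update_self, sum_congr rfl fun i hi => by
      rw [update_of_ne (mem_range.1 hi).ne], b1]
    simp only [ContinuousLinearMap.coe_snd'] at b2
    linear_combination p.2 ^ d * b2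

theorem pz_eq {a : ℕ → E → ℂ} {u : E × ℂ → ℂ} {d : ℕ} (hu : AnalyticAt ℂ u 0)
    (h : ∀ᶠ p in 𝓝 (0 : E × ℂ), g p = ∑ i ∈ range d, a i p.1 * p.2 ^ i + p.2 ^ d * u p) :
    ∀ᶠ x in 𝓝 (0 : E), ∀ i < d, pz i g (x, 0) = i.factorial * a i x := by
  have := FiniteDimensional.complete ℂ E
  have t : Tendsto (fun x : E => (x, (0 : ℂ))) (𝓝 0) (𝓝 0) :=
    (continuous_id.prodMk continuous_const).tendsto 0
  filter_upwards [t.eventually h.eventually_nhds, t.eventually hu.eventually_analyticAt]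
    with x b1 b2 i hi
  have a1 : AnalyticAt ℂ (fun z : ℂ => (x, z)) 0 := analyticAt_const.prod analyticAt_id
  exact coef (U := fun z => u (x, z)) (a := fun j => a j x) (AnalyticAt.comp (g := u) b2 a1)
    (a1.continuousAt.eventually b1) hi

theorem tay_form {e : ℕ} (hg : AnalyticAt ℂ g 0) (h1 : ∀ᶠ x in 𝓝 (0 : E), pz e g (x, 0) = 0)
    (h2 : pz (e + 1) g 0 ≠ 0) : ∃ (a : ℕ → E → ℂ) (u : E × ℂ → ℂ),
    (∀ i, AnalyticAt ℂ (a i) 0) ∧ AnalyticAt ℂ u 0 ∧ u 0 ≠ 0 ∧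
      ∀ᶠ p in 𝓝 (0 : E × ℂ), g p = ∑ i ∈ range e, a i p.1 * p.2 ^ i + p.2 ^ (e + 1) * u p := by
  obtain ⟨a, u, k1, k2, k3⟩ := taylor hg (e + 2)
  have k4 := pz_eq k2 k3
  refine ⟨a, fun p => a (e + 1) p.1 + p.2 * u p, k1,
    (AnalyticAt.comp (g := a (e + 1)) (f := Prod.fst) (k1 _) analyticAt_fst).add
      (analyticAt_snd.mul k2), fun z => h2 ?_, ?_⟩
  · have := k4.self_of_nhds (e + 1) (by omega)
    simp only [Prod.fst_zero, Prod.snd_zero, zero_mul, add_zero] at z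
    rw [z, mul_zero] at this
    exact this
  filter_upwards [k3, (continuous_fst.tendsto (0 : E × ℂ)).eventually (h1.and k4)] with p b1 b2
  have b3 := b2.2 e (by omega)
  rw [b2.1] at b3
  have b4 : a e p.1 = 0 :=
    (mul_eq_zero.1 b3.symm).resolve_left (Nat.cast_ne_zero.2 (Nat.factorial_ne_zero e))
  rw [b1, sum_range_succ, sum_range_succ, b4]
  ring

theorem tsch {e : ℕ} (hg : AnalyticAt ℂ g 0) (h1 : pz e g 0 = 0) (h2 : pz (e + 1) g 0 ≠ 0) :
    ∃ φ : E → ℂ, AnalyticAt ℂ φ 0 ∧ φ 0 = 0 ∧ ∀ᶠ x in 𝓝 (0 : E), pz e g (x, φ x) = 0 := by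
  have := FiniteDimensional.complete ℂ E
  have aF := pz_ana e hg
  have cF : ContDiffAt ℂ ⊤ (pz e g) 0 := aF.contDiffAt
  rw [pz_succ, deriv_snd aF] at h2
  have iv : (fderiv ℂ (pz e g) 0 ∘L .inr ℂ E ℂ).IsInvertible :=
    ⟨ContinuousLinearEquiv.unitsEquivAut ℂ (Units.mk0 _ h2), by ext; simp⟩
  refine ⟨cF.implicitFunction (by simp) iv,
    (cF.contDiffAt_implicitFunction (by simp) iv).analyticAt,
    cF.implicitFunction_apply_self (by simp) iv, ?_⟩
  simpa [h1] using cF.eventually_apply_implicitFunction (by simp) iv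

theorem pz_shift (k : ℕ) (φ : E → ℂ) (p : E × ℂ) :
    pz k (fun q => g (q.1, q.2 + φ q.1)) p = pz k g (p.1, p.2 + φ p.1) := by
  simp only [pz]
  rw [iteratedDeriv_comp_add_const k (fun z => g (p.1, z)) (φ p.1)]

end Pool.Agent.Lib.MP_5c318e_ag.Mo
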